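import Pool.Agent.Helper19.Herman.Solve

set_option autoImplicit false
set_option linter.all false

namespace Pool.Agent.Helper19.Herman

variable {K : Type*} [Field K]

/-- The (normalised) system of recursions for the Taylor coefficients in the local gauge.
Here `h = 2 η`, the multipliers are `R n / h` and the periodic orbit is `ζ n / (4 η)`. -/
structure Sys {k : ℕ} (η : K) (ζ R B P C Q T ρ b e q σ : ZMod k → K) : Prop where
  eR : ∀ n, R n + 4 * η ^ 2 * (R (n - 1))⁻¹ = ζ n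
  eB : ∀ n, B n * R n - 4 * η ^ 2 * B (n + 1) * (R n)⁻¹ = 1
  eP : ∀ n, R n ^ 2 * P (n + 1) + 16 * η ^ 4 * P (n - 1) * (R (n - 1))⁻¹ ^ 2
      - 2 * η * ζ n * P n = 1
  eC : ∀ n, 2 * η * (C (n + 1) + C (n - 1)) - ζ n * C n = B n
  eQ : ∀ n, 16 * η ^ 4 * Q (n + 1) * (R n)⁻¹ ^ 2 + R (n - 1) ^ 2 * Q (n - 1)
      - 2 * η * ζ n * Q n = B n ^ 2
  eT : ∀ n, R n ^ 3 * T (n + 1) + 64 * η ^ 6 * T (n - 1) * (R (n - 1))⁻¹ ^ 3
      - 4 * η ^ 2 * ζ n * T n = P n
  eρ : ∀ n, R n * ρ n - 4 * η ^ 2 * ρ (n - 1) * (R (n - 1))⁻¹ = C n + η * B n * P n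
  eb : ∀ n, b n * R n - 4 * η ^ 2 * b (n + 1) * (R n)⁻¹ = - B n * R n * ρ n
      - η * (R n ^ 2 * P (n + 1) * Q n - 16 * η ^ 4 * Q (n + 1) * P n * (R n)⁻¹ ^ 2)
      - 4 * η ^ 2 * B (n + 1) * ρ n * (R n)⁻¹
  ee : ∀ n, 2 * η * (e (n + 1) + e (n - 1)) - ζ n * e n
      = C n ^ 2 + 2 * b n + 2 * η ^ 2 * P n * Q n
  eq : ∀ n, R n ^ 2 * q (n + 1) + 16 * η ^ 4 * q (n - 1) * (R (n - 1))⁻¹ ^ 2
      - 2 * η * ζ n * q n
      = η * (P n * C n + 4 * η ^ 2 * B n * T n) - R n ^ 2 * P (n + 1) * ρ n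
        + 16 * η ^ 4 * P (n - 1) * ρ (n - 1) * (R (n - 1))⁻¹ ^ 2
  eσ : ∀ n, R n * σ n + 4 * η ^ 2 * (2 * ρ (n - 1) ^ 2 - σ (n - 1)) * (R (n - 1))⁻¹
      = e n + η * (4 * B n * q n + 2 * b n * P n + 8 * η ^ 3 * Q n * T n)

theorem exists_sys {k : ℕ} [NeZero k] (V : ValuationSubring K) {η : K}
    (hη : V.valuation η < 1)
    (ζ R : ZMod k → K) (hζ : ∀ n, ζ n ∈ V) (hζi : ∀ n, (ζ n)⁻¹ ∈ V) (hζ0 : ∀ n, ζ n ≠ 0)
    (hR : ∀ n, R n ∈ V) (hRi : ∀ n, (R n)⁻¹ ∈ V) (hR0 : ∀ n, R n ≠ 0)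
    (hsq : ∀ n, ζ n ^ 2 = 1 + 4 * η * (ζ (n + 1) + ζ (n - 1)))
    (eR : ∀ n, R n + 4 * η ^ 2 * (R (n - 1))⁻¹ = ζ n) :
    ∃ B P C Q T ρ b e q σ : ZMod k → K, Sys η ζ R B P C Q T ρ b e q σ ∧
      ∀ n, ∃ t ∈ V, σ n - ρ n ^ 2 = -4 + η * t := by
  have hηV : η ∈ V := (V.valuation_le_one_iff _).mp hη.le
  have h2V : (2 : K) ∈ V := by
    have : (2 : K) = 1 + 1 := by norm_num
    rw [this]
    exact V.add_mem _ _ V.one_mem V.one_mem
  have h4V : (4 : K) ∈ V := by
    have : (4 : K) = 2 * 2 := by norm_num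
    rw [this]; repeat' (first | assumption | (refine mul_mem ?_ ?_) | (refine add_mem ?_ ?_) | (refine sub_mem ?_ ?_) | (refine neg_mem ?_) | (refine pow_mem ?_ _) | exact one_mem _ | exact zero_mem _ | apply_assumption)
  have h8V : (8 : K) ∈ V := by
    have : (8 : K) = 4 * 2 := by norm_num
    rw [this]; repeat' (first | assumption | (refine mul_mem ?_ ?_) | (refine add_mem ?_ ?_) | (refine sub_mem ?_ ?_) | (refine neg_mem ?_) | (refine pow_mem ?_ _) | exact one_mem _ | exact zero_mem _ | apply_assumption)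
  have h16V : (16 : K) ∈ V := by
    have : (16 : K) = 4 * 4 := by norm_num
    rw [this]; repeat' (first | assumption | (refine mul_mem ?_ ?_) | (refine add_mem ?_ ?_) | (refine sub_mem ?_ ?_) | (refine neg_mem ?_) | (refine pow_mem ?_ _) | exact one_mem _ | exact zero_mem _ | apply_assumption)
  have h64V : (64 : K) ∈ V := by
    have : (64 : K) = 4 * 16 := by norm_num
    rw [this]; repeat' (first | assumption | (refine mul_mem ?_ ?_) | (refine add_mem ?_ ?_) | (refine sub_mem ?_ ?_) | (refine neg_mem ?_) | (refine pow_mem ?_ _) | exact one_mem _ | exact zero_mem _ | apply_assumption)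
  -- B
  obtain ⟨B, hB, hB'⟩ := solve V hη (fun n => 4 * η * (R n)⁻¹ ^ 2) (fun _ => 0)
    (fun n => (R n)⁻¹) (fun n => n + 1) id (fun n => by repeat' (first | assumption | (refine mul_mem ?_ ?_) | (refine add_mem ?_ ?_) | (refine sub_mem ?_ ?_) | (refine neg_mem ?_) | (refine pow_mem ?_ _) | exact one_mem _ | exact zero_mem _ | apply_assumption)) (fun n => V.zero_mem) hRi
  have eB : ∀ n, B n * R n - 4 * η ^ 2 * B (n + 1) * (R n)⁻¹ = 1 := by
    intro n
    have h := hB' n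
    have h0 := hR0 n
    simp only [id] at h
    have : B n * R n = 1 + 4 * η ^ 2 * B (n + 1) * (R n)⁻¹ := by
      rw [h]; field_simp; ring
    rw [this]; ring
  -- P
  obtain ⟨P, hP, hP'⟩ := solve V hη (fun n => 2 * ζ (n - 1) * (R (n - 1))⁻¹ ^ 2)
    (fun n => - (16 * η ^ 3) * (R (n - 1 - 1))⁻¹ ^ 2 * (R (n - 1))⁻¹ ^ 2)
    (fun n => (R (n - 1))⁻¹ ^ 2) (fun n => n - 1) (fun n => n - 1 - 1) (fun n => by repeat' (first | assumption | (refine mul_mem ?_ ?_) | (refine add_mem ?_ ?_) | (refine sub_mem ?_ ?_) | (refine neg_mem ?_) | (refine pow_mem ?_ _) | exact one_mem _ | exact zero_mem _ | apply_assumption))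
    (fun n => by repeat' (first | assumption | (refine mul_mem ?_ ?_) | (refine add_mem ?_ ?_) | (refine sub_mem ?_ ?_) | (refine neg_mem ?_) | (refine pow_mem ?_ _) | exact one_mem _ | exact zero_mem _ | apply_assumption)) (fun n => by repeat' (first | assumption | (refine mul_mem ?_ ?_) | (refine add_mem ?_ ?_) | (refine sub_mem ?_ ?_) | (refine neg_mem ?_) | (refine pow_mem ?_ _) | exact one_mem _ | exact zero_mem _ | apply_assumption))
  have eP : ∀ n, R n ^ 2 * P (n + 1) + 16 * η ^ 4 * P (n - 1) * (R (n - 1))⁻¹ ^ 2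
      - 2 * η * ζ n * P n = 1 := by
    intro n
    have h := hP' (n + 1)
    simp only [add_sub_cancel_right] at h
    have h0 := hR0 n
    rw [h]; field_simp; ring
  -- C
  obtain ⟨C, hC, hC'⟩ := solve V hη (fun n => 2 * (ζ n)⁻¹) (fun n => 2 * (ζ n)⁻¹)
    (fun n => - (ζ n)⁻¹ * B n) (fun n => n + 1) (fun n => n - 1) (fun n => by repeat' (first | assumption | (refine mul_mem ?_ ?_) | (refine add_mem ?_ ?_) | (refine sub_mem ?_ ?_) | (refine neg_mem ?_) | (refine pow_mem ?_ _) | exact one_mem _ | exact zero_mem _ | apply_assumption))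
    (fun n => by repeat' (first | assumption | (refine mul_mem ?_ ?_) | (refine add_mem ?_ ?_) | (refine sub_mem ?_ ?_) | (refine neg_mem ?_) | (refine pow_mem ?_ _) | exact one_mem _ | exact zero_mem _ | apply_assumption)) (fun n => by repeat' (first | assumption | (refine mul_mem ?_ ?_) | (refine add_mem ?_ ?_) | (refine sub_mem ?_ ?_) | (refine neg_mem ?_) | (refine pow_mem ?_ _) | exact one_mem _ | exact zero_mem _ | apply_assumption))
  have eC : ∀ n, 2 * η * (C (n + 1) + C (n - 1)) - ζ n * C n = B n := by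
    intro n
    have h := hC' n
    have h0 := hζ0 n
    rw [h]; field_simp; ring
  -- Q
  obtain ⟨Q, hQ, hQ'⟩ := solve V hη (fun n => 2 * ζ (n + 1) * (R n)⁻¹ ^ 2)
    (fun n => - (16 * η ^ 3) * (R (n + 1))⁻¹ ^ 2 * (R n)⁻¹ ^ 2)
    (fun n => (R n)⁻¹ ^ 2 * B (n + 1) ^ 2) (fun n => n + 1) (fun n => n + 1 + 1)
    (fun n => by repeat' (first | assumption | (refine mul_mem ?_ ?_) | (refine add_mem ?_ ?_) | (refine sub_mem ?_ ?_) | (refine neg_mem ?_) | (refine pow_mem ?_ _) | exact one_mem _ | exact zero_mem _ | apply_assumption)) (fun n => by repeat' (first | assumption | (refine mul_mem ?_ ?_) | (refine add_mem ?_ ?_) | (refine sub_mem ?_ ?_) | (refine neg_mem ?_) | (refine pow_mem ?_ _) | exact one_mem _ | exact zero_mem _ | apply_assumption)) (fun n => by repeat' (first | assumption | (refine mul_mem ?_ ?_) | (refine add_mem ?_ ?_) | (refine sub_mem ?_ ?_) | (refine neg_mem ?_) | (refine pow_mem ?_ _) | exact one_mem _ | exact zero_mem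 _ | apply_assumption))
  have eQ : ∀ n, 16 * η ^ 4 * Q (n + 1) * (R n)⁻¹ ^ 2 + R (n - 1) ^ 2 * Q (n - 1)
      - 2 * η * ζ n * Q n = B n ^ 2 := by
    intro n
    have h := hQ' (n - 1)
    simp only [sub_add_cancel] at h
    have h0 := hR0 (n - 1)
    rw [h]; field_simp; ring
  -- T
  obtain ⟨T, hT, hT'⟩ := solve V hη (fun n => 4 * ζ (n - 1) * η * (R (n - 1))⁻¹ ^ 3)
    (fun n => - (64 * η ^ 5) * (R (n - 1 - 1))⁻¹ ^ 3 * (R (n - 1))⁻¹ ^ 3)
    (fun n => P (n - 1) * (R (n - 1))⁻¹ ^ 3) (fun n => n - 1) (fun n => n - 1 - 1)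
    (fun n => by repeat' (first | assumption | (refine mul_mem ?_ ?_) | (refine add_mem ?_ ?_) | (refine sub_mem ?_ ?_) | (refine neg_mem ?_) | (refine pow_mem ?_ _) | exact one_mem _ | exact zero_mem _ | apply_assumption)) (fun n => by repeat' (first | assumption | (refine mul_mem ?_ ?_) | (refine add_mem ?_ ?_) | (refine sub_mem ?_ ?_) | (refine neg_mem ?_) | (refine pow_mem ?_ _) | exact one_mem _ | exact zero_mem _ | apply_assumption)) (fun n => by repeat' (first | assumption | (refine mul_mem ?_ ?_) | (refine add_mem ?_ ?_) | (refine sub_mem ?_ ?_) | (refine neg_mem ?_) | (refine pow_mem ?_ _) | exact one_mem _ | exact zero_mem _ | apply_assumption))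
  have eT : ∀ n, R n ^ 3 * T (n + 1) + 64 * η ^ 6 * T (n - 1) * (R (n - 1))⁻¹ ^ 3
      - 4 * η ^ 2 * ζ n * T n = P n := by
    intro n
    have h := hT' (n + 1)
    simp only [add_sub_cancel_right] at h
    have h0 := hR0 n
    rw [h]; field_simp; ring
  -- ρ
  obtain ⟨ρ, hρ, hρ'⟩ := solve V hη (fun n => 4 * η * (R (n - 1))⁻¹ * (R n)⁻¹) (fun _ => 0)
    (fun n => (R n)⁻¹ * (C n + η * B n * P n)) (fun n => n - 1) id (fun n => by repeat' (first | assumption | (refine mul_mem ?_ ?_) | (refine add_mem ?_ ?_) | (refine sub_mem ?_ ?_) | (refine neg_mem ?_) | (refine pow_mem ?_ _) | exact one_mem _ | exact zero_mem _ | apply_assumption))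
    (fun n => V.zero_mem) (fun n => by repeat' (first | assumption | (refine mul_mem ?_ ?_) | (refine add_mem ?_ ?_) | (refine sub_mem ?_ ?_) | (refine neg_mem ?_) | (refine pow_mem ?_ _) | exact one_mem _ | exact zero_mem _ | apply_assumption))
  have eρ : ∀ n, R n * ρ n - 4 * η ^ 2 * ρ (n - 1) * (R (n - 1))⁻¹
      = C n + η * B n * P n := by
    intro n
    have h := hρ' n
    have h0 := hR0 n
    simp only [id] at h
    rw [h]; field_simp; ring
  -- b
  obtain ⟨b, hb, hb'⟩ := solve V hη (fun n => 4 * η * (R n)⁻¹ ^ 2) (fun _ => 0)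
    (fun n => (R n)⁻¹ * (- B n * R n * ρ n
      - η * (R n ^ 2 * P (n + 1) * Q n - 16 * η ^ 4 * Q (n + 1) * P n * (R n)⁻¹ ^ 2)
      - 4 * η ^ 2 * B (n + 1) * ρ n * (R n)⁻¹)) (fun n => n + 1) id (fun n => by repeat' (first | assumption | (refine mul_mem ?_ ?_) | (refine add_mem ?_ ?_) | (refine sub_mem ?_ ?_) | (refine neg_mem ?_) | (refine pow_mem ?_ _) | exact one_mem _ | exact zero_mem _ | apply_assumption))
    (fun n => V.zero_mem) (fun n => by repeat' (first | assumption | (refine mul_mem ?_ ?_) | (refine add_mem ?_ ?_) | (refine sub_mem ?_ ?_) | (refine neg_mem ?_) | (refine pow_mem ?_ _) | exact one_mem _ | exact zero_mem _ | apply_assumption))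
  have eb : ∀ n, b n * R n - 4 * η ^ 2 * b (n + 1) * (R n)⁻¹ = - B n * R n * ρ n
      - η * (R n ^ 2 * P (n + 1) * Q n - 16 * η ^ 4 * Q (n + 1) * P n * (R n)⁻¹ ^ 2)
      - 4 * η ^ 2 * B (n + 1) * ρ n * (R n)⁻¹ := by
    intro n
    have h := hb' n
    have h0 := hR0 n
    simp only [id] at h
    rw [h]; field_simp; ring
  -- e
  obtain ⟨e, he, he'⟩ := solve V hη (fun n => 2 * (ζ n)⁻¹) (fun n => 2 * (ζ n)⁻¹)
    (fun n => - (ζ n)⁻¹ * (C n ^ 2 + 2 * b n + 2 * η ^ 2 * P n * Q n))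
    (fun n => n + 1) (fun n => n - 1) (fun n => by repeat' (first | assumption | (refine mul_mem ?_ ?_) | (refine add_mem ?_ ?_) | (refine sub_mem ?_ ?_) | (refine neg_mem ?_) | (refine pow_mem ?_ _) | exact one_mem _ | exact zero_mem _ | apply_assumption))
    (fun n => by repeat' (first | assumption | (refine mul_mem ?_ ?_) | (refine add_mem ?_ ?_) | (refine sub_mem ?_ ?_) | (refine neg_mem ?_) | (refine pow_mem ?_ _) | exact one_mem _ | exact zero_mem _ | apply_assumption)) (fun n => by repeat' (first | assumption | (refine mul_mem ?_ ?_) | (refine add_mem ?_ ?_) | (refine sub_mem ?_ ?_) | (refine neg_mem ?_) | (refine pow_mem ?_ _) | exact one_mem _ | exact zero_mem _ | apply_assumption))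
  have ee : ∀ n, 2 * η * (e (n + 1) + e (n - 1)) - ζ n * e n
      = C n ^ 2 + 2 * b n + 2 * η ^ 2 * P n * Q n := by
    intro n
    have h := he' n
    have h0 := hζ0 n
    rw [h]; field_simp; ring
  -- q
  obtain ⟨q, hq, hq'⟩ := solve V hη (fun n => 2 * ζ (n - 1) * (R (n - 1))⁻¹ ^ 2)
    (fun n => - (16 * η ^ 3) * (R (n - 1 - 1))⁻¹ ^ 2 * (R (n - 1))⁻¹ ^ 2)
    (fun n => (R (n - 1))⁻¹ ^ 2 * (η * (P (n - 1) * C (n - 1) + 4 * η ^ 2 * B (n - 1) * T (n - 1))
      - R (n - 1) ^ 2 * P (n - 1 + 1) * ρ (n - 1)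
        + 16 * η ^ 4 * P (n - 1 - 1) * ρ (n - 1 - 1) * (R (n - 1 - 1))⁻¹ ^ 2))
    (fun n => n - 1) (fun n => n - 1 - 1) (fun n => by repeat' (first | assumption | (refine mul_mem ?_ ?_) | (refine add_mem ?_ ?_) | (refine sub_mem ?_ ?_) | (refine neg_mem ?_) | (refine pow_mem ?_ _) | exact one_mem _ | exact zero_mem _ | apply_assumption))
    (fun n => by repeat' (first | assumption | (refine mul_mem ?_ ?_) | (refine add_mem ?_ ?_) | (refine sub_mem ?_ ?_) | (refine neg_mem ?_) | (refine pow_mem ?_ _) | exact one_mem _ | exact zero_mem _ | apply_assumption)) (fun n => by repeat' (first | assumption | (refine mul_mem ?_ ?_) | (refine add_mem ?_ ?_) | (refine sub_mem ?_ ?_) | (refine neg_mem ?_) | (refine pow_mem ?_ _) | exact one_mem _ | exact zero_mem _ | apply_assumption))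
  have eq : ∀ n, R n ^ 2 * q (n + 1) + 16 * η ^ 4 * q (n - 1) * (R (n - 1))⁻¹ ^ 2
      - 2 * η * ζ n * q n
      = η * (P n * C n + 4 * η ^ 2 * B n * T n) - R n ^ 2 * P (n + 1) * ρ n
        + 16 * η ^ 4 * P (n - 1) * ρ (n - 1) * (R (n - 1))⁻¹ ^ 2 := by
    intro n
    have h := hq' (n + 1)
    simp only [add_sub_cancel_right] at h
    have h0 := hR0 n
    rw [h]; field_simp; ring
  -- σ
  obtain ⟨σ, hσ, hσ'⟩ := solve V hη (fun n => 4 * η * (R (n - 1))⁻¹ * (R n)⁻¹) (fun _ => 0)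
    (fun n => (R n)⁻¹ * (e n + η * (4 * B n * q n + 2 * b n * P n + 8 * η ^ 3 * Q n * T n)
      - 8 * η ^ 2 * ρ (n - 1) ^ 2 * (R (n - 1))⁻¹)) (fun n => n - 1) id (fun n => by repeat' (first | assumption | (refine mul_mem ?_ ?_) | (refine add_mem ?_ ?_) | (refine sub_mem ?_ ?_) | (refine neg_mem ?_) | (refine pow_mem ?_ _) | exact one_mem _ | exact zero_mem _ | apply_assumption))
    (fun n => V.zero_mem) (fun n => by repeat' (first | assumption | (refine mul_mem ?_ ?_) | (refine add_mem ?_ ?_) | (refine sub_mem ?_ ?_) | (refine neg_mem ?_) | (refine pow_mem ?_ _) | exact one_mem _ | exact zero_mem _ | apply_assumption))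
  have eσ : ∀ n, R n * σ n + 4 * η ^ 2 * (2 * ρ (n - 1) ^ 2 - σ (n - 1)) * (R (n - 1))⁻¹
      = e n + η * (4 * B n * q n + 2 * b n * P n + 8 * η ^ 3 * Q n * T n) := by
    intro n
    have h := hσ' n
    have h0 := hR0 n
    simp only [id] at h
    rw [h]; field_simp; ring
  refine ⟨B, P, C, Q, T, ρ, b, e, q, σ, ⟨eR, eB, eP, eC, eQ, eT, eρ, eb, ee, eq, eσ⟩, ?_⟩
  intro n
  -- congruences modulo η V
  have c1 : ∃ t ∈ V, ζ n ^ 2 = 1 + η * t := ⟨4 * (ζ (n + 1) + ζ (n - 1)), by repeat' (first | assumption | (refine mul_mem ?_ ?_) | (refine add_mem ?_ ?_) | (refine sub_mem ?_ ?_) | (refine neg_mem ?_) | (refine pow_mem ?_ _) | exact one_mem _ | exact zero_mem _ | apply_assumption), by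
    rw [hsq n]; ring⟩
  have c2 : ∃ t ∈ V, R n = ζ n + η * t := ⟨- (4 * η) * (R (n - 1))⁻¹, by repeat' (first | assumption | (refine mul_mem ?_ ?_) | (refine add_mem ?_ ?_) | (refine sub_mem ?_ ?_) | (refine neg_mem ?_) | (refine pow_mem ?_ _) | exact one_mem _ | exact zero_mem _ | apply_assumption), by
    linear_combination eR n⟩
  have c3 : ∃ t ∈ V, B n * R n = 1 + η * t := ⟨4 * η * B (n + 1) * (R n)⁻¹, by repeat' (first | assumption | (refine mul_mem ?_ ?_) | (refine add_mem ?_ ?_) | (refine sub_mem ?_ ?_) | (refine neg_mem ?_) | (refine pow_mem ?_ _) | exact one_mem _ | exact zero_mem _ | apply_assumption), by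
    linear_combination eB n⟩
  have c4 : ∃ t ∈ V, ζ n * C n = - B n + η * t := ⟨2 * (C (n + 1) + C (n - 1)), by repeat' (first | assumption | (refine mul_mem ?_ ?_) | (refine add_mem ?_ ?_) | (refine sub_mem ?_ ?_) | (refine neg_mem ?_) | (refine pow_mem ?_ _) | exact one_mem _ | exact zero_mem _ | apply_assumption), by
    linear_combination - eC n⟩
  have c5 : ∃ t ∈ V, R n * ρ n = C n + η * t :=
    ⟨4 * η * ρ (n - 1) * (R (n - 1))⁻¹ + B n * P n, by repeat' (first | assumption | (refine mul_mem ?_ ?_) | (refine add_mem ?_ ?_) | (refine sub_mem ?_ ?_) | (refine neg_mem ?_) | (refine pow_mem ?_ _) | exact one_mem _ | exact zero_mem _ | apply_assumption), by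
    linear_combination eρ n⟩
  have c6 : ∃ t ∈ V, b n = - B n * ρ n + η * t :=
    ⟨(R n)⁻¹ * (4 * η * b (n + 1) * (R n)⁻¹
    - (R n ^ 2 * P (n + 1) * Q n - 16 * η ^ 4 * Q (n + 1) * P n * (R n)⁻¹ ^ 2)
    - 4 * η * B (n + 1) * ρ n * (R n)⁻¹), by repeat' (first | assumption | (refine mul_mem ?_ ?_) | (refine add_mem ?_ ?_) | (refine sub_mem ?_ ?_) | (refine neg_mem ?_) | (refine pow_mem ?_ _) | exact one_mem _ | exact zero_mem _ | apply_assumption), by
    have h0 := hR0 n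
    have h := eb n
    have : b n = (R n)⁻¹ * (b n * R n) := by field_simp
    rw [this, show b n * R n = 4 * η ^ 2 * b (n + 1) * (R n)⁻¹ + (- B n * R n * ρ n
    - η * (R n ^ 2 * P (n + 1) * Q n - 16 * η ^ 4 * Q (n + 1) * P n * (R n)⁻¹ ^ 2)
    - 4 * η ^ 2 * B (n + 1) * ρ n * (R n)⁻¹) by rw [← h]; ring]
    field_simp
    ring⟩
  have c7 : ∃ t ∈ V, ζ n * e n = - (C n ^ 2 + 2 * b n) + η * t :=
    ⟨2 * (e (n + 1) + e (n - 1)) - 2 * η * P n * Q n, by repeat' (first | assumption | (refine mul_mem ?_ ?_) | (refine add_mem ?_ ?_) | (refine sub_mem ?_ ?_) | (refine neg_mem ?_) | (refine pow_mem ?_ _) | exact one_mem _ | exact zero_mem _ | apply_assumption), by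
    linear_combination - ee n⟩
  have c8 : ∃ t ∈ V, R n * σ n = e n + η * t :=
    ⟨(4 * B n * q n + 2 * b n * P n + 8 * η ^ 3 * Q n * T n)
      - 4 * η * (2 * ρ (n - 1) ^ 2 - σ (n - 1)) * (R (n - 1))⁻¹, by repeat' (first | assumption | (refine mul_mem ?_ ?_) | (refine add_mem ?_ ?_) | (refine sub_mem ?_ ?_) | (refine neg_mem ?_) | (refine pow_mem ?_ _) | exact one_mem _ | exact zero_mem _ | apply_assumption), by
    linear_combination eσ n⟩
  have hζn := hζ n
  have hRn := hR n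
  have hBn := hB n
  have hCn := hC n
  have hρn := hρ n
  have hbn := hb n
  have hen := he n
  have hσn := hσ n
  generalize ζ n = z at *
  generalize R n = r at *
  generalize B n = B0 at *
  generalize C n = C0 at *
  generalize ρ n = ρ0 at *
  generalize b n = b0 at *
  generalize e n = e0 at *
  generalize σ n = σ0 at *
  obtain ⟨t1, ht1, c1⟩ := c1
  obtain ⟨t2, ht2, c2⟩ := c2
  obtain ⟨t3, ht3, c3⟩ := c3
  obtain ⟨t4, ht4, c4⟩ := c4
  obtain ⟨t5, ht5, c5⟩ := c5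
  obtain ⟨t6, ht6, c6⟩ := c6
  obtain ⟨t7, ht7, c7⟩ := c7
  obtain ⟨t8, ht8, c8⟩ := c8
  -- z B ≡ 1
  have d1 : ∃ t ∈ V, z * B0 = 1 + η * t := ⟨t3 - B0 * t2, by repeat' (first | assumption | (refine mul_mem ?_ ?_) | (refine add_mem ?_ ?_) | (refine sub_mem ?_ ?_) | (refine neg_mem ?_) | (refine pow_mem ?_ _) | exact one_mem _ | exact zero_mem _ | apply_assumption), by
    linear_combination c3 - B0 * c2⟩
  obtain ⟨s1, hs1, d1⟩ := d1
  -- C ≡ -1
  have d2 : ∃ t ∈ V, C0 = -1 + η * t :=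
    ⟨- s1 + z * t4 - t1 * C0, by repeat' (first | assumption | (refine mul_mem ?_ ?_) | (refine add_mem ?_ ?_) | (refine sub_mem ?_ ?_) | (refine neg_mem ?_) | (refine pow_mem ?_ _) | exact one_mem _ | exact zero_mem _ | apply_assumption), by
    linear_combination z * c4 - d1 - C0 * c1⟩
  obtain ⟨s2, hs2, d2⟩ := d2
  -- z ρ ≡ C ≡ -1
  have d3 : ∃ t ∈ V, z * ρ0 = -1 + η * t :=
    ⟨t5 - t2 * ρ0 + s2, by repeat' (first | assumption | (refine mul_mem ?_ ?_) | (refine add_mem ?_ ?_) | (refine sub_mem ?_ ?_) | (refine neg_mem ?_) | (refine pow_mem ?_ _) | exact one_mem _ | exact zero_mem _ | apply_assumption), by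
    linear_combination c5 - ρ0 * c2 + d2⟩
  obtain ⟨s3, hs3, d3⟩ := d3
  -- b ≡ 1
  have d4 : ∃ t ∈ V, b0 = 1 + η * t :=
    ⟨z ^ 2 * t6 - t1 * b0 - (s3 * (1 + η * s1) - s1), by repeat' (first | assumption | (refine mul_mem ?_ ?_) | (refine add_mem ?_ ?_) | (refine sub_mem ?_ ?_) | (refine neg_mem ?_) | (refine pow_mem ?_ _) | exact one_mem _ | exact zero_mem _ | apply_assumption), by
    linear_combination (z ^ 2) * c6 - b0 * c1 - (z * ρ0) * d1
      - (1 + η * s1) * d3⟩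
  obtain ⟨s4, hs4, d4⟩ := d4
  -- z e ≡ - 3
  have d5 : ∃ t ∈ V, z * e0 = -3 + η * t :=
    ⟨t7 + 2 * s2 - η * s2 ^ 2 - 2 * s4, by repeat' (first | assumption | (refine mul_mem ?_ ?_) | (refine add_mem ?_ ?_) | (refine sub_mem ?_ ?_) | (refine neg_mem ?_) | (refine pow_mem ?_ _) | exact one_mem _ | exact zero_mem _ | apply_assumption), by
    linear_combination c7 - (C0 - 1 + η * s2) * d2 - 2 * d4⟩
  obtain ⟨s5, hs5, d5⟩ := d5
  -- σ ≡ -3
  have d6 : ∃ t ∈ V, σ0 = -3 + η * t :=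
    ⟨s5 + z * t8 - z * t2 * σ0 - t1 * σ0, by repeat' (first | assumption | (refine mul_mem ?_ ?_) | (refine add_mem ?_ ?_) | (refine sub_mem ?_ ?_) | (refine neg_mem ?_) | (refine pow_mem ?_ _) | exact one_mem _ | exact zero_mem _ | apply_assumption), by
    linear_combination z * c8 - (z * σ0) * c2 - σ0 * c1 + d5⟩
  obtain ⟨s6, hs6, d6⟩ := d6
  -- ρ² ≡ 1
  have d7 : ∃ t ∈ V, ρ0 ^ 2 = 1 + η * t :=
    ⟨- 2 * s3 + η * s3 ^ 2 - t1 * ρ0 ^ 2, by repeat' (first | assumption | (refine mul_mem ?_ ?_) | (refine add_mem ?_ ?_) | (refine sub_mem ?_ ?_) | (refine neg_mem ?_) | (refine pow_mem ?_ _) | exact one_mem _ | exact zero_mem _ | apply_assumption), by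
    linear_combination (z * ρ0 + (-1 + η * s3)) * d3 - ρ0 ^ 2 * c1⟩
  obtain ⟨s7, hs7, d7⟩ := d7
  exact ⟨s6 - s7, by repeat' (first | assumption | (refine mul_mem ?_ ?_) | (refine add_mem ?_ ?_) | (refine sub_mem ?_ ?_) | (refine neg_mem ?_) | (refine pow_mem ?_ _) | exact one_mem _ | exact zero_mem _ | apply_assumption), by linear_combination d6 - d7⟩

end Pool.Agent.Helper19.Herman
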