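import Mathlib

set_option autoImplicit false

namespace Pool.Agent.Helper19.Herman

open Polynomial

theorem coeff_bound (j : ℕ) : ∀ (δ : ℝ), 0 < δ → ∀ M : ℝ, ∃ M' : ℝ, ∀ q : ℂ[X],
    (∀ t : ℂ, ‖t‖ ≤ δ → ‖q.eval t‖ ≤ M) → ‖q.coeff j‖ ≤ M' := by
  induction j with
  | zero =>
    intro δ hδ M
    refine ⟨M, fun q hq => ?_⟩
    have := hq 0 (by simpa using hδ.le)
    rwa [← Polynomial.coeff_zero_eq_eval_zero] at this
  | succ j ih =>
    intro δ hδ M
    obtain ⟨M', hM'⟩ := ih (δ / 2) (by linarith) (M / (δ / 2))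
    refine ⟨M', fun q hq => ?_⟩
    have h1 : ‖q.derivative.coeff j‖ ≤ M' := by
      apply hM'
      intro t ht
      have h2 := Complex.norm_deriv_le_of_forall_mem_sphere_norm_le (f := fun z => q.eval z)
        (c := t) (R := δ / 2) (C := M) (by linarith) (q.differentiable.diffContOnCl)
        (by
          intro z hz
          apply hq
          have h3 : ‖z - t‖ = δ / 2 := by simpa [dist_eq_norm] using hz
          calc ‖z‖ = ‖(z - t) + t‖ := by ring_nf
            _ ≤ ‖z - t‖ + ‖t‖ := norm_add_le _ _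
            _ ≤ δ / 2 + δ / 2 := by linarith
            _ = δ := by ring)
      rwa [Polynomial.deriv] at h2
    rw [Polynomial.coeff_derivative, norm_mul] at h1
    have h4 : (1 : ℝ) ≤ ‖((j : ℂ) + 1)‖ := by
      have : ((j : ℂ) + 1) = ((j + 1 : ℕ) : ℂ) := by push_cast; ring
      rw [this, Complex.norm_natCast]
      exact_mod_cast Nat.succ_pos j
    calc ‖q.coeff (j + 1)‖ ≤ ‖q.coeff (j + 1)‖ * ‖((j : ℂ) + 1)‖ :=
          le_mul_of_one_le_right (norm_nonneg _) h4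
      _ ≤ M' := h1

theorem coeff_bound₂ (i j : ℕ) (δ : ℝ) (hδ : 0 < δ) (M : ℝ) : ∃ M' : ℝ, ∀ P : ℂ[X][X],
    (∀ s t : ℂ, ‖s‖ ≤ δ → ‖t‖ ≤ δ → ‖P.evalEval s t‖ ≤ M) → ‖(P.coeff j).coeff i‖ ≤ M' := by
  obtain ⟨M1, hM1⟩ := coeff_bound j δ hδ M
  obtain ⟨M2, hM2⟩ := coeff_bound i δ hδ M1
  refine ⟨M2, fun P hP => hM2 _ fun s hs => ?_⟩
  have h := hM1 (P.map (Polynomial.evalRingHom s)) (by
    intro t ht
    rw [Polynomial.map_evalRingHom_eval]
    exact hP s t hs ht)
  rwa [Polynomial.coeff_map] at h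

/-- the Hénon map -/
def henon (c : ℂ) : ℂ × ℂ → ℂ × ℂ := fun x => (x.1 ^ 2 + c - x.2, x.1)

/-- polynomial solution of the difference equation -/
noncomputable def UU (a : ℕ → ℂ) (U₀ U₁ : ℂ[X][X]) : ℕ → ℂ[X][X]
  | 0 => U₀
  | 1 => U₁
  | n + 2 => C (C (a (n + 1))) * UU a U₀ U₁ (n + 1) + UU a U₀ U₁ (n + 1) ^ 2 - UU a U₀ U₁ n

theorem henon_UU (c : ℂ) (p : ℂ × ℂ) (z : ℕ → ℂ)
    (hz : ∀ n, (henon c)^[n] p = (z (n + 1), z n)) (U₀ U₁ : ℂ[X][X]) (s t : ℂ) (n : ℕ) :
    (henon c)^[n] (z 1 + U₁.evalEval s t, z 0 + U₀.evalEval s t)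
      = (z (n + 1) + (UU (fun n => 2 * z n) U₀ U₁ (n + 1)).evalEval s t,
         z n + (UU (fun n => 2 * z n) U₀ U₁ n).evalEval s t) := by
  induction n with
  | zero => simp [UU]
  | succ n ih =>
    rw [Function.iterate_succ_apply', ih]
    have h1 := hz (n + 1)
    rw [Function.iterate_succ_apply', hz n] at h1
    have h2 : z (n + 1) ^ 2 + c - z n = z (n + 1 + 1) := congrArg Prod.fst h1
    simp only [henon]
    refine Prod.ext ?_ rfl
    simp only [UU, evalEval_add, evalEval_sub, evalEval_mul, evalEval_pow, evalEval_C, eval_C]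
    linear_combination h2

/-- the initial polynomial with prescribed coefficients in the box `i ≤ 3`, `j ≤ 2`. -/
noncomputable def boxPoly (c : ℕ → ℕ → ℂ) : ℂ[X][X] :=
  ∑ j ∈ Finset.range 3, C (∑ i ∈ Finset.range 4, C (c i j) * X ^ i) * X ^ j

theorem boxPoly_coeff (c : ℕ → ℕ → ℂ) {i j : ℕ} (hi : i ≤ 3) (hj : j ≤ 2) :
    ((boxPoly c).coeff j).coeff i = c i j := by
  have h1 : (boxPoly c).coeff j = ∑ i ∈ Finset.range 4, C (c i j) * X ^ i := by
    unfold boxPoly
    rw [Polynomial.finsetSum_coeff]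
    simp only [Polynomial.coeff_C_mul, Polynomial.coeff_X_pow, mul_ite, mul_one, mul_zero]
    rw [Finset.sum_ite_eq, if_pos (Finset.mem_range.mpr (by omega))]
  rw [h1, Polynomial.finsetSum_coeff]
  simp only [Polynomial.coeff_C_mul, Polynomial.coeff_X_pow, mul_ite, mul_one, mul_zero]
  rw [Finset.sum_ite_eq, if_pos (Finset.mem_range.mpr (by omega))]

theorem UU_coeff (a : ℕ → ℂ) (c : ℕ → ℕ → ℕ → ℂ)
    (hrec : ∀ n i j, i ≤ 3 → j ≤ 2 → c (n + 2) i j + c n i j - a (n + 1) * c (n + 1) i j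
      = ∑ u ∈ Finset.range (i + 1), ∑ v ∈ Finset.range (j + 1),
        c (n + 1) u v * c (n + 1) (i - u) (j - v)) (n : ℕ) :
    ∀ i j, i ≤ 3 → j ≤ 2 → ((UU a (boxPoly (c 0)) (boxPoly (c 1)) n).coeff j).coeff i
      = c n i j := by
  induction n using Nat.twoStepInduction with
  | zero => intro i j hi hj; exact boxPoly_coeff _ hi hj
  | one => intro i j hi hj; exact boxPoly_coeff _ hi hj
  | more n ih0 ih1 =>
    intro i j hi hj
    simp only [UU, Polynomial.coeff_sub, Polynomial.coeff_add, Polynomial.coeff_C_mul]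
    rw [ih0 i j hi hj, ih1 i j hi hj]
    have h : ((UU a (boxPoly (c 0)) (boxPoly (c 1)) (n + 1) ^ 2).coeff j).coeff i
        = ∑ u ∈ Finset.range (i + 1), ∑ v ∈ Finset.range (j + 1),
          c (n + 1) u v * c (n + 1) (i - u) (j - v) := by
      rw [pow_two, Polynomial.coeff_mul, Finset.Nat.sum_antidiagonal_eq_sum_range_succ_mk,
        Polynomial.finsetSum_coeff, Finset.sum_comm]
      rw [Finset.sum_comm]
      have : ∀ v ∈ Finset.range (j + 1),
          ((UU a (boxPoly (c 0)) (boxPoly (c 1)) (n + 1)).coeff v *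
            (UU a (boxPoly (c 0)) (boxPoly (c 1)) (n + 1)).coeff (j - v)).coeff i
          = ∑ u ∈ Finset.range (i + 1), c (n + 1) u v * c (n + 1) (i - u) (j - v) := by
        intro v hv
        have hv' := Finset.mem_range.mp hv
        rw [Polynomial.coeff_mul, Finset.Nat.sum_antidiagonal_eq_sum_range_succ_mk]
        refine Finset.sum_congr rfl fun u hu => ?_
        have hu' := Finset.mem_range.mp hu
        rw [ih1 u v (by omega) (by omega), ih1 (i - u) (j - v) (by omega) (by omega)]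
      rw [Finset.sum_congr rfl this, Finset.sum_comm]
    rw [h, ← hrec n i j hi hj]
    ring

/-- **Boundedness of the Taylor coefficients.** -/
theorem coeff_bounded_of_bounded (c₀ : ℂ) (p : ℂ × ℂ) (z : ℕ → ℂ)
    (hz : ∀ n, (henon c₀)^[n] p = (z (n + 1), z n)) (Mz : ℝ) (hMz : ∀ n, ‖z n‖ ≤ Mz)
    (φ : ℕ → ℕ) (r M : ℝ) (hr : 0 < r)
    (hb : ∀ l, ∀ x, dist x p ≤ r → ‖(henon c₀)^[φ l] x‖ ≤ M)
    (c : ℕ → ℕ → ℕ → ℂ) (h00 : ∀ n, c n 0 0 = 0)
    (hrec : ∀ n i j, i ≤ 3 → j ≤ 2 → c (n + 2) i j + c n i j - (2 * z (n + 1)) * c (n + 1) i j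
      = ∑ u ∈ Finset.range (i + 1), ∑ v ∈ Finset.range (j + 1),
        c (n + 1) u v * c (n + 1) (i - u) (j - v)) (i j : ℕ) (hi : i ≤ 3) (hj : j ≤ 2) :
    ∃ M' : ℝ, ∀ l, ‖c (φ l) i j‖ ≤ M' ∧ ‖c (φ l + 1) i j‖ ≤ M' := by
  set U₀ := boxPoly (c 0) with hU0
  set U₁ := boxPoly (c 1) with hU1
  have hp : p = (z 1, z 0) := by simpa using hz 0
  have hcont : Continuous fun st : ℂ × ℂ =>
      ((z 1 + U₁.evalEval st.1 st.2, z 0 + U₀.evalEval st.1 st.2) : ℂ × ℂ) := by
    have hc : ∀ P : ℂ[X][X], Continuous fun st : ℂ × ℂ => P.evalEval st.1 st.2 := by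
      intro P
      induction P using Polynomial.induction_on' with
      | add P Q hP hQ =>
        simp only [evalEval_add]
        exact hP.add hQ
      | monomial n a =>
        have : ∀ st : ℂ × ℂ, (Polynomial.monomial n a).evalEval st.1 st.2
            = a.eval st.1 * st.2 ^ n := by
          intro st
          rw [← Polynomial.C_mul_X_pow_eq_monomial, evalEval_mul, evalEval_pow, evalEval_C,
            evalEval_X]
        simp only [this]
        exact (a.continuous.comp continuous_fst).mul (continuous_snd.pow n)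
    exact (continuous_const.add (hc U₁)).prodMk (continuous_const.add (hc U₀))
  have hzero : ∀ n, n ≤ 1 → (boxPoly (c n)).evalEval 0 0 = 0 := by
    intro n _
    have h1 : (boxPoly (c n)).evalEval 0 0 = ((boxPoly (c n)).coeff 0).coeff 0 := by
      rw [Polynomial.coeff_zero_eq_eval_zero, Polynomial.coeff_zero_eq_eval_zero, evalEval]
      simp
    rw [h1, boxPoly_coeff _ (by norm_num) (by norm_num), h00]
  have hat := hcont.continuousAt (x := (0, 0))
  rw [Metric.continuousAt_iff] at hat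
  obtain ⟨δ, hδ, hδ'⟩ := hat r hr
  simp only [hU1, hU0, hzero 1 le_rfl, hzero 0 (by norm_num), add_zero] at hδ'
  rw [← hU1, ← hU0, ← hp] at hδ'
  obtain ⟨M', hM'⟩ := coeff_bound₂ i j (δ / 2) (by linarith) (M + Mz)
  have hmain : ∀ l, ∀ s t : ℂ, ‖s‖ ≤ δ / 2 → ‖t‖ ≤ δ / 2 →
      ‖(UU (fun n => 2 * z n) U₀ U₁ (φ l)).evalEval s t‖ ≤ M + Mz ∧
      ‖(UU (fun n => 2 * z n) U₀ U₁ (φ l + 1)).evalEval s t‖ ≤ M + Mz := by
    intro l s t hs ht
    have h1 := henon_UU c₀ p z hz U₀ U₁ s t (φ l)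
    have h2 : dist ((z 1 + U₁.evalEval s t, z 0 + U₀.evalEval s t) : ℂ × ℂ) p ≤ r := by
      refine (hδ' (x := (s, t)) ?_).le
      rw [Prod.dist_eq, dist_zero_right, dist_zero_right]
      exact max_lt (by linarith) (by linarith)
    have h3 := hb l _ h2
    rw [h1, Prod.norm_def] at h3
    have h4 := (le_max_right _ _).trans h3
    have h5 := (le_max_left _ _).trans h3
    simp only at h4 h5
    constructor
    · calc ‖(UU (fun n => 2 * z n) U₀ U₁ (φ l)).evalEval s t‖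
          = ‖(z (φ l) + (UU (fun n => 2 * z n) U₀ U₁ (φ l)).evalEval s t) - z (φ l)‖ := by
            rw [add_sub_cancel_left]
        _ ≤ ‖z (φ l) + (UU (fun n => 2 * z n) U₀ U₁ (φ l)).evalEval s t‖ + ‖z (φ l)‖ :=
            norm_sub_le _ _
        _ ≤ M + Mz := add_le_add h4 (hMz _)
    · calc ‖(UU (fun n => 2 * z n) U₀ U₁ (φ l + 1)).evalEval s t‖
          = ‖(z (φ l + 1) + (UU (fun n => 2 * z n) U₀ U₁ (φ l + 1)).evalEval s t)
              - z (φ l + 1)‖ := by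
            rw [add_sub_cancel_left]
        _ ≤ ‖z (φ l + 1) + (UU (fun n => 2 * z n) U₀ U₁ (φ l + 1)).evalEval s t‖
              + ‖z (φ l + 1)‖ := norm_sub_le _ _
        _ ≤ M + Mz := add_le_add h5 (hMz _)
  refine ⟨M', fun l => ⟨?_, ?_⟩⟩
  · rw [← UU_coeff (fun n => 2 * z n) c hrec (φ l) i j hi hj]
    exact hM' _ fun s t hs ht => (hmain l s t hs ht).1
  · rw [← UU_coeff (fun n => 2 * z n) c hrec (φ l + 1) i j hi hj]
    exact hM' _ fun s t hs ht => (hmain l s t hs ht).2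

end Pool.Agent.Helper19.Herman
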