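import Pool.Agent.Helper19.Herman.Main2

set_option autoImplicit false
set_option linter.all false

namespace Pool.Agent.Helper19.Herman

open Filter Topology

/-- the property used: bounded iterates, along some sequence of times tending to infinity, near
a point of period `k`. -/
def BddPeriodic (k : ℕ) (c : ℂ) : Prop :=
  ∃ p : ℂ × ℂ, (henon c)^[k] p = p ∧ ∃ φ : ℕ → ℕ, Tendsto φ atTop atTop ∧
    ∃ r M : ℝ, 0 < r ∧ ∀ l, ∀ x, dist x p ≤ r → ‖(henon c)^[φ l] x‖ ≤ M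

section ultra

abbrev KK := Filter.Germ (hyperfilter ℕ : Filter ℕ) ℂ

noncomputable def toK : (ℕ → ℂ) →+* KK := Filter.Germ.coeRingHom _

theorem toK_surj (x : KK) : ∃ f, toK f = x := by
  induction x using Filter.Germ.inductionOn with
  | _ f => exact ⟨f, rfl⟩

theorem toK_inv (f : ℕ → ℂ) : toK f⁻¹ = (toK f)⁻¹ := rfl

theorem toK_eq {f g : ℕ → ℂ} (h : toK f = toK g) : ∀ᶠ i in (hyperfilter ℕ : Filter ℕ), f i = g i :=
  Filter.Germ.coe_eq.mp h

theorem toK_of_eventually {f g : ℕ → ℂ}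
    (h : ∀ᶠ i in (hyperfilter ℕ : Filter ℕ), f i = g i) : toK f = toK g :=
  Filter.Germ.coe_eq.mpr h

instance : CharZero KK := by
  refine ⟨fun m n h => ?_⟩
  have h1 : toK ((m : ℕ → ℂ)) = toK ((n : ℕ → ℂ)) := by
    rw [map_natCast, map_natCast]; exact h
  obtain ⟨i, hi⟩ := (toK_eq h1).exists
  simpa using hi

theorem KK_sqrt (x : KK) : ∃ y, y ^ 2 = x := by
  obtain ⟨f, rfl⟩ := toK_surj x
  have : ∀ i, ∃ w : ℂ, w ^ 2 = f i := fun i => IsAlgClosed.exists_pow_nat_eq (f i) (by norm_num)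
  choose g hg using this
  refine ⟨toK g, ?_⟩
  rw [← map_pow]
  congr 1
  ext i
  exact hg i

theorem not_integral {c : ℕ → ℂ} (hc : Function.Injective c) : ¬ IsIntegral ℤ (toK c) := by
  rintro ⟨P, hP, h0⟩
  have h1 : toK (fun i => Polynomial.eval₂ (algebraMap ℤ ℂ) (c i) P) = toK 0 := by
    rw [map_zero, ← h0]
    have e : (fun i => Polynomial.eval₂ (algebraMap ℤ ℂ) (c i) P)
        = Polynomial.eval₂ (Int.castRingHom (ℕ → ℂ)) c P := by
      ext i
      have h5 := Polynomial.hom_eval₂ P (Int.castRingHom (ℕ → ℂ))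
        (Pi.evalRingHom (fun _ : ℕ => ℂ) i) c
      have h6 : (Pi.evalRingHom (fun _ : ℕ => ℂ) i).comp (Int.castRingHom (ℕ → ℂ))
          = algebraMap ℤ ℂ := RingHom.ext_int _ _
      rw [h6] at h5
      exact h5.symm
    rw [e, Polynomial.hom_eval₂]
    congr 1
  have h2 := toK_eq h1
  have hfin : Set.Finite {i | Polynomial.eval₂ (algebraMap ℤ ℂ) (c i) P = 0} := by
    have hPne : P.map (algebraMap ℤ ℂ) ≠ 0 := (hP.map _).ne_zero
    have h3 : {i | Polynomial.eval₂ (algebraMap ℤ ℂ) (c i) P = 0}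
        ⊆ c ⁻¹' {x | (P.map (algebraMap ℤ ℂ)).IsRoot x} := by
      intro i hi
      simp only [Set.mem_preimage, Set.mem_setOf_eq, Polynomial.IsRoot.def, Polynomial.eval_map]
      exact hi
    refine Set.Finite.subset ?_ h3
    refine Set.Finite.preimage hc.injOn ?_
    exact Polynomial.finite_setOf_isRoot hPne
  have h4 : {i | Polynomial.eval₂ (algebraMap ℤ ℂ) (c i) P = 0} ∈ hyperfilter ℕ := h2
  exact (Set.Finite.notMem_hyperfilter hfin) h4

end ultra

/-- **Finiteness.** -/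
theorem finite_bddPeriodic (k : ℕ) (hk : 0 < k) : Set.Finite {c | BddPeriodic k c} := by
  have : NeZero k := ⟨hk.ne'⟩
  by_contra hinf
  have hinf' : Set.Infinite {c | BddPeriodic k c} := hinf
  obtain ⟨f⟩ : Nonempty (ℕ ↪ {c | BddPeriodic k c}) := ⟨Set.Infinite.natEmbedding _ hinf'⟩
  set c : ℕ → ℂ := fun i => (f i : ℂ) with hc
  have hcinj : Function.Injective c := fun i j h => f.injective (Subtype.ext h)
  have hprop : ∀ i, BddPeriodic k (c i) := fun i => (f i).2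
  choose p hp φ hφ r M hr hb using hprop
  have hk0 : (k : ℂ) ≠ 0 := Nat.cast_ne_zero.mpr hk.ne'
  have hinj2 : Function.Injective (fun i => 256 * (k : ℂ) ^ 2 * c i) := by
    intro i j h
    have h1 : (256 * (k : ℂ) ^ 2) ≠ 0 := mul_ne_zero (by norm_num) (pow_ne_zero _ hk0)
    exact hcinj (mul_left_cancel₀ h1 h)
  obtain ⟨V, hV⟩ := exists_val _ (not_integral hinj2)
  have hVc : 256 * ((k : ℕ) : KK) ^ 2 * toK c ∉ V := by
    have e : (256 * ((k : ℕ) : KK) ^ 2 * toK c) = toK (fun i => 256 * (k : ℂ) ^ 2 * c i) := by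
      have : (fun i => 256 * (k : ℂ) ^ 2 * c i) = 256 * ((k : ℕ) : ℕ → ℂ) ^ 2 * c := by
        ext i; simp
      rw [this, map_mul, map_mul, map_pow, map_natCast, map_ofNat]
    rw [e]; exact hV
  set zf : ZMod k → ℕ → ℂ := fun n i => orb (c i) (p i) k n with hzf
  have hzrec : ∀ n, toK (zf (n + 1)) + toK (zf (n - 1)) = toK (zf n) ^ 2 + toK c := by
    intro n
    rw [← map_add, ← map_pow, ← map_add]
    congr 1
    ext i
    exact orb_rec (c i) (p i) k (hp i) n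
  obtain ⟨η, hη0, hη1, hη4, R, hζ, hζi, hζ0, hR, hRi, hR0, hsq, eR⟩ :=
    exists_data V KK_sqrt (toK c) k hVc (fun n => toK (zf n)) hzrec
  obtain ⟨B, P, C, Q, T, ρ, b, e, q, σ, S, hcong⟩ := exists_sys V hη1
    (fun n => 4 * η * toK (zf n)) R hζ hζi hζ0 hR hRi hR0 hsq eR
  obtain ⟨ηf, rfl⟩ := toK_surj η
  have hrep : ∀ x : ZMod k → KK, ∃ xf : ZMod k → ℕ → ℂ, x = fun n => toK (xf n) := by
    intro x
    choose xf hxf using fun n => toK_surj (x n)
    exact ⟨xf, funext fun n => (hxf n).symm⟩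
  obtain ⟨Rf, rfl⟩ := hrep R
  obtain ⟨Bf, rfl⟩ := hrep B
  obtain ⟨Pf, rfl⟩ := hrep P
  obtain ⟨Cf, rfl⟩ := hrep C
  obtain ⟨Qf, rfl⟩ := hrep Q
  obtain ⟨Tf, rfl⟩ := hrep T
  obtain ⟨ρf, rfl⟩ := hrep ρ
  obtain ⟨bf, rfl⟩ := hrep b
  obtain ⟨ef, rfl⟩ := hrep e
  obtain ⟨qf, rfl⟩ := hrep q
  obtain ⟨σf, rfl⟩ := hrep σ
  have hne : ∀ g : ℕ → ℂ, toK g ≠ 0 → ∀ᶠ i in (hyperfilter ℕ : Filter ℕ), g i ≠ 0 := by
    intro g hg
    exact Ultrafilter.eventually_not.mpr fun h =>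
      hg (by rw [← map_zero toK]; exact toK_of_eventually h)
  have E0 := hne ηf hη0
  have E1 : ∀ᶠ i in (hyperfilter ℕ : Filter ℕ), ∀ n, Rf n i ≠ 0 :=
    eventually_all.mpr fun n => hne _ (hR0 n)
  have tr : ∀ (F G : ZMod k → ℕ → ℂ), (∀ n, toK (F n) = toK (G n)) →
      ∀ᶠ i in (hyperfilter ℕ : Filter ℕ), ∀ n, F n i = G n i := fun F G h =>
    eventually_all.mpr fun n => toK_eq (h n)
  have T1 := tr (fun n => Rf n + 4 * ηf ^ 2 * (Rf (n - 1))⁻¹) (fun n => 4 * ηf * zf n)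
    (fun n => by
      simp only [map_add, map_mul, map_sub, map_pow, map_neg, map_one, map_ofNat, toK_inv]
      exact S.eR n)
  have T2 := tr (fun n => Bf n * Rf n - 4 * ηf ^ 2 * Bf (n + 1) * (Rf n)⁻¹) (fun n => 1)
    (fun n => by
      simp only [map_add, map_mul, map_sub, map_pow, map_neg, map_one, map_ofNat, toK_inv]
      exact S.eB n)
  have T3 := tr (fun n => Rf n ^ 2 * Pf (n + 1) + 16 * ηf ^ 4 * Pf (n - 1) * (Rf (n - 1))⁻¹ ^ 2
      - 2 * ηf * (4 * ηf * zf n) * Pf n) (fun n => 1)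
    (fun n => by
      simp only [map_add, map_mul, map_sub, map_pow, map_neg, map_one, map_ofNat, toK_inv]
      exact S.eP n)
  have T4 := tr (fun n => 2 * ηf * (Cf (n + 1) + Cf (n - 1)) - (4 * ηf * zf n) * Cf n)
    (fun n => Bf n)
    (fun n => by
      simp only [map_add, map_mul, map_sub, map_pow, map_neg, map_one, map_ofNat, toK_inv]
      exact S.eC n)
  have T5 := tr (fun n => 16 * ηf ^ 4 * Qf (n + 1) * (Rf n)⁻¹ ^ 2 + Rf (n - 1) ^ 2 * Qf (n - 1)
      - 2 * ηf * (4 * ηf * zf n) * Qf n) (fun n => Bf n ^ 2)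
    (fun n => by
      simp only [map_add, map_mul, map_sub, map_pow, map_neg, map_one, map_ofNat, toK_inv]
      exact S.eQ n)
  have T6 := tr (fun n => Rf n ^ 3 * Tf (n + 1) + 64 * ηf ^ 6 * Tf (n - 1) * (Rf (n - 1))⁻¹ ^ 3
      - 4 * ηf ^ 2 * (4 * ηf * zf n) * Tf n) (fun n => Pf n)
    (fun n => by
      simp only [map_add, map_mul, map_sub, map_pow, map_neg, map_one, map_ofNat, toK_inv]
      exact S.eT n)
  have T7 := tr (fun n => Rf n * ρf n - 4 * ηf ^ 2 * ρf (n - 1) * (Rf (n - 1))⁻¹)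
      (fun n => Cf n + ηf * Bf n * Pf n)
    (fun n => by
      simp only [map_add, map_mul, map_sub, map_pow, map_neg, map_one, map_ofNat, toK_inv]
      exact S.eρ n)
  have T8 := tr (fun n => bf n * Rf n - 4 * ηf ^ 2 * bf (n + 1) * (Rf n)⁻¹)
      (fun n => - Bf n * Rf n * ρf n
      - ηf * (Rf n ^ 2 * Pf (n + 1) * Qf n - 16 * ηf ^ 4 * Qf (n + 1) * Pf n * (Rf n)⁻¹ ^ 2)
      - 4 * ηf ^ 2 * Bf (n + 1) * ρf n * (Rf n)⁻¹)
    (fun n => by
      simp only [map_add, map_mul, map_sub, map_pow, map_neg, map_one, map_ofNat, toK_inv]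
      exact S.eb n)
  have T9 := tr (fun n => 2 * ηf * (ef (n + 1) + ef (n - 1)) - (4 * ηf * zf n) * ef n)
      (fun n => Cf n ^ 2 + 2 * bf n + 2 * ηf ^ 2 * Pf n * Qf n)
    (fun n => by
      simp only [map_add, map_mul, map_sub, map_pow, map_neg, map_one, map_ofNat, toK_inv]
      exact S.ee n)
  have T10 := tr (fun n => Rf n ^ 2 * qf (n + 1) + 16 * ηf ^ 4 * qf (n - 1) * (Rf (n - 1))⁻¹ ^ 2
      - 2 * ηf * (4 * ηf * zf n) * qf n)
      (fun n => ηf * (Pf n * Cf n + 4 * ηf ^ 2 * Bf n * Tf n) - Rf n ^ 2 * Pf (n + 1) * ρf n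
        + 16 * ηf ^ 4 * Pf (n - 1) * ρf (n - 1) * (Rf (n - 1))⁻¹ ^ 2)
    (fun n => by
      simp only [map_add, map_mul, map_sub, map_pow, map_neg, map_one, map_ofNat, toK_inv]
      exact S.eq n)
  have T11 := tr (fun n => Rf n * σf n
        + 4 * ηf ^ 2 * (2 * ρf (n - 1) ^ 2 - σf (n - 1)) * (Rf (n - 1))⁻¹)
      (fun n => ef n + ηf * (4 * Bf n * qf n + 2 * bf n * Pf n + 8 * ηf ^ 3 * Qf n * Tf n))
    (fun n => by
      simp only [map_add, map_mul, map_sub, map_pow, map_neg, map_one, map_ofNat, toK_inv]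
      exact S.eσ n)
  have hall : ∀ᶠ i in (hyperfilter ℕ : Filter ℕ),
      ∑ j ∈ Finset.range k, (σf (j : ZMod k) i - ρf (j : ZMod k) i ^ 2) = 0 := by
    filter_upwards [E0, E1, T1, T2, T3, T4, T5, T6, T7, T8, T9, T10, T11] with i e0 e1 t1 t2 t3
      t4 t5 t6 t7 t8 t9 t10 t11
    exact drift_zero (c i) k (p i) (hp i) (φ i) (hφ i) (r i) (M i) (hr i) (hb i) (ηf i) e0
      (fun n => Rf n i) (fun n => Bf n i) (fun n => Pf n i) (fun n => Cf n i) (fun n => Qf n i)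
      (fun n => Tf n i) (fun n => ρf n i) (fun n => bf n i) (fun n => ef n i) (fun n => qf n i)
      (fun n => σf n i) e1 ⟨t1, t2, t3, t4, t5, t6, t7, t8, t9, t10, t11⟩
  have hsum : ∑ j ∈ Finset.range k,
      (toK (σf (j : ZMod k)) - toK (ρf (j : ZMod k)) ^ 2) = 0 := by
    have : ∑ j ∈ Finset.range k, (toK (σf (j : ZMod k)) - toK (ρf (j : ZMod k)) ^ 2)
        = toK (fun i => ∑ j ∈ Finset.range k, (σf (j : ZMod k) i - ρf (j : ZMod k) i ^ 2)) := by
      have e : (fun i => ∑ j ∈ Finset.range k, (σf (j : ZMod k) i - ρf (j : ZMod k) i ^ 2))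
          = ∑ j ∈ Finset.range k, (σf (j : ZMod k) - ρf (j : ZMod k) ^ 2) := by
        ext i
        simp
      rw [e, map_sum]
      simp only [map_sub, map_pow]
    rw [this, ← map_zero toK]
    exact toK_of_eventually hall
  exact sum_ne V k (toK ηf) hη4 (fun n => toK (σf n) - toK (ρf n) ^ 2) hcong hsum

end Pool.Agent.Helper19.Herman
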