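import Pool.Agent.Helper19.Herman.Core2

set_option autoImplicit false
set_option linter.all false

namespace Pool.Agent.Helper19.Herman

variable {K : Type*} [Field K]

/-- product of the local multipliers -/
noncomputable def EE {k : ℕ} (η : K) (R : ZMod k → K) (n : ℕ) : K :=
  ∏ j ∈ Finset.range n, (R (j : ZMod k) / (2 * η))

/-- the first drift -/
noncomputable def XX {k : ℕ} (η : K) (ρ : ZMod k → K) (n : ℕ) : K :=
  ∑ j ∈ Finset.range n, 32 * η ^ 3 * ρ (j : ZMod k)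

/-- the second drift -/
noncomputable def YY {k : ℕ} (η : K) (ρ σ : ZMod k → K) (n : ℕ) : K :=
  ∑ j ∈ Finset.range n, (512 * η ^ 6 * σ (j : ZMod k)
    + XX η ρ j * (32 * η ^ 3 * ρ (j : ZMod k)))

/-- gauge-fixed coefficients -/
noncomputable def xc {k : ℕ} (η : K) (B P C Q T ρ b e q σ : ZMod k → K) (n : ℕ) :
    ℕ → ℕ → K
  | 1, 0 => 1
  | 0, 1 => 2 * η * B n
  | 2, 0 => 4 * η ^ 2 * P n
  | 1, 1 => 8 * η ^ 2 * C n
  | 0, 2 => 16 * η ^ 4 * Q n
  | 3, 0 => 64 * η ^ 5 * T n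
  | 2, 1 => XX η ρ n
  | 1, 2 => 64 * η ^ 4 * b n - 2 * η * B n * XX η ρ n
  | 3, 1 => 256 * η ^ 5 * q n + 2 * (4 * η ^ 2 * P n) * XX η ρ n
  | 2, 2 => 128 * η ^ 5 * e n
  | 3, 2 => YY η ρ σ n
  | _, _ => 0

theorem xc_rec {k : ℕ} {η : K} (hη : η ≠ 0) (h2 : (2 : K) ≠ 0)
    {ζ R B P C Q T ρ b e q σ : ZMod k → K}
    (hR0 : ∀ n, R n ≠ 0)
    (S : Sys η ζ R B P C Q T ρ b e q σ) (n : ℕ) (i j : ℕ) (hi : i ≤ 3) (hj : j ≤ 2) :
    (R ((n : ZMod k) + 1) / (2 * η)) ^ i * (R ((n : ZMod k) + 1) / (2 * η))⁻¹ ^ j *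
        xc η B P C Q T ρ b e q σ (n + 2) i j
      + (R (n : ZMod k) / (2 * η))⁻¹ ^ i * (R (n : ZMod k) / (2 * η)) ^ j
        * xc η B P C Q T ρ b e q σ n i j
      - (ζ ((n : ZMod k) + 1) / (2 * η)) * xc η B P C Q T ρ b e q σ (n + 1) i j
      = ∑ u ∈ Finset.range (i + 1), ∑ v ∈ Finset.range (j + 1),
        xc η B P C Q T ρ b e q σ (n + 1) u v
          * xc η B P C Q T ρ b e q σ (n + 1) (i - u) (j - v) := by
  have hc2 : (((n + 2 : ℕ)) : ZMod k) = (n : ZMod k) + 1 + 1 := by push_cast; ring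
  have hc1 : (((n + 1 : ℕ)) : ZMod k) = (n : ZMod k) + 1 := by push_cast; ring
  have hX2 : XX η ρ (n + 2) = XX η ρ (n + 1) + 32 * η ^ 3 * ρ ((n : ZMod k) + 1) := by
    unfold XX
    rw [Finset.sum_range_succ _ (n + 1), hc1]
  have hX0 : XX η ρ n = XX η ρ (n + 1) - 32 * η ^ 3 * ρ (n : ZMod k) := by
    unfold XX
    rw [Finset.sum_range_succ _ n]; ring
  have hY2 : YY η ρ σ (n + 2) = YY η ρ σ (n + 1) + (512 * η ^ 6 * σ ((n : ZMod k) + 1)
      + XX η ρ (n + 1) * (32 * η ^ 3 * ρ ((n : ZMod k) + 1))) := by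
    unfold YY
    rw [Finset.sum_range_succ _ (n + 1), hc1]
  have hY0 : YY η ρ σ n = YY η ρ σ (n + 1) - (512 * η ^ 6 * σ (n : ZMod k)
      + XX η ρ n * (32 * η ^ 3 * ρ (n : ZMod k))) := by
    unfold YY
    rw [Finset.sum_range_succ _ n]; ring
  have eR := S.eR ((n : ZMod k) + 1)
  have eB := S.eB ((n : ZMod k) + 1)
  have eB0 := S.eB (n : ZMod k)
  have eP := S.eP ((n : ZMod k) + 1)
  have eC := S.eC ((n : ZMod k) + 1)
  have eQ := S.eQ ((n : ZMod k) + 1)
  have eT := S.eT ((n : ZMod k) + 1)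
  have eρ := S.eρ ((n : ZMod k) + 1)
  have eb := S.eb ((n : ZMod k) + 1)
  have eb0 := S.eb (n : ZMod k)
  have ee := S.ee ((n : ZMod k) + 1)
  have eq := S.eq ((n : ZMod k) + 1)
  have eσ := S.eσ ((n : ZMod k) + 1)
  have h0 := hR0 (n : ZMod k)
  have h1 := hR0 ((n : ZMod k) + 1)
  simp only [add_sub_cancel_right] at eR eB eB0 eP eC eQ eT eρ eb eb0 ee eq eσ
  interval_cases i <;> interval_cases j <;>
    simp only [Finset.sum_range_succ, Finset.sum_range_zero, xc, hc2, hc1,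
      mul_zero, zero_mul, add_zero, sub_zero, pow_zero, mul_one, zero_add,
      one_mul, Nat.sub_self, Nat.reduceAdd, Nat.reduceSub, pow_one]
  all_goals try rw [hX2]
  all_goals try rw [hY2]
  all_goals try rw [hY0]
  all_goals try rw [hX0]
  all_goals clear hX2 hX0 hY2 hY0 hc1 hc2 hi hj
  all_goals generalize R ((n : ZMod k) + 1) = r1 at *
  all_goals generalize R (n : ZMod k) = r0 at *
  all_goals generalize ζ ((n : ZMod k) + 1) = z1 at *
  · linear_combination (norm := (field_simp; ring)) eB0 - eB + B ((n : ZMod k) + 1) * eR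
  · linear_combination (norm := (field_simp; ring)) 4 * η ^ 2 * eQ
  · linear_combination (norm := (field_simp; ring)) (1 / (2 * η)) * eR
  · linear_combination (norm := (field_simp; ring)) 4 * η * eC
  · linear_combination (norm := (field_simp; ring)) - XX η ρ (n + 1) *
      (eB0 - eB + B ((n : ZMod k) + 1) * eR)
      + 32 * η ^ 3 * (eb0 - eb + b ((n : ZMod k) + 1) * eR + B ((n : ZMod k) + 1) * eρ
        + η * (Q ((n : ZMod k) + 1) * eP - P ((n : ZMod k) + 1) * eQ))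
  · linear_combination (norm := (field_simp; ring)) eP
  · linear_combination (norm := (field_simp; ring)) (XX η ρ (n + 1) / (2 * η)) * eR
      + 16 * η ^ 2 * eρ
  · linear_combination (norm := (field_simp; ring)) 64 * η ^ 4 * ee
  · linear_combination (norm := (field_simp; ring)) 8 * η ^ 2 * eT
  · linear_combination (norm := (field_simp; ring)) 2 * XX η ρ (n + 1) * eP + 64 * η ^ 3 * eq
  · linear_combination (norm := (field_simp; ring)) (YY η ρ σ (n + 1) / (2 * η)) * eR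
      + XX η ρ (n + 1) * (16 * η ^ 2) * eρ + 256 * η ^ 5 * eσ

end Pool.Agent.Helper19.Herman
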