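import Pool.Agent.Helper19.Herman.Core2

set_option autoImplicit false
set_option linter.all false

namespace Pool.Agent.Helper19.Herman

variable {K : Type*} [Field K]

/-- solution of `x (n+2) = a (n+1) x (n+1) - x n` -/
noncomputable def sol (a : ℕ → K) (x₀ x₁ : K) : ℕ → K
  | 0 => x₀
  | 1 => x₁
  | n + 2 => a (n + 1) * sol a x₀ x₁ (n + 1) - sol a x₀ x₁ n

theorem sol_lin (a : ℕ → K) (x₀ x₁ : K) (n : ℕ) :
    sol a x₀ x₁ n = x₀ * sol a 1 0 n + x₁ * sol a 0 1 n := by
  induction n using Nat.twoStepInduction with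
  | zero => simp [sol]
  | one => simp [sol]
  | more n h0 h1 => simp only [sol]; rw [h0, h1]; ring

theorem sol_wronsk (a : ℕ → K) (n : ℕ) :
    sol a 1 0 n * sol a 0 1 (n + 1) - sol a 1 0 (n + 1) * sol a 0 1 n = 1 := by
  induction n with
  | zero => simp [sol]
  | succ n ih =>
    simp only [sol]
    linear_combination ih

theorem sol_shift (a : ℕ → K) (k : ℕ) (hk : ∀ n, a (n + k) = a n) (x₀ x₁ : K) (n : ℕ) :
    sol a x₀ x₁ (n + k) = sol a (sol a x₀ x₁ k) (sol a x₀ x₁ (k + 1)) n := by
  induction n using Nat.twoStepInduction with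
  | zero => simp [sol]
  | one => rw [add_comm 1 k]; simp [sol]
  | more n h0 h1 =>
    have e1 : n + 2 + k = (n + k) + 2 := by ring
    have e2 : n + 1 + k = (n + k) + 1 := by ring
    rw [e1]
    simp only [sol]
    rw [← h0, ← h1, e2]
    have := hk (n + 1)
    rw [e2] at this
    rw [this]

section growth

variable (V : ValuationSubring K) (a x : ℕ → K) (g : V.ValueGroup) (hg : 1 < g)
  (ha : ∀ n, V.valuation (a n) = g) (hx : ∀ n, x (n + 2) = a (n + 1) * x (n + 1) - x n)

include hg ha hx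

theorem growth_step (n : ℕ) (h0 : x (n + 1) ≠ 0)
    (h : V.valuation (x n) ≤ V.valuation (x (n + 1))) :
    V.valuation (x (n + 2)) = g * V.valuation (x (n + 1)) ∧ x (n + 2) ≠ 0 ∧
      V.valuation (x (n + 1)) ≤ V.valuation (x (n + 2)) := by
  have hpos : 0 < V.valuation (x (n + 1)) := zero_lt_iff.mpr ((Valuation.ne_zero_iff _).mpr h0)
  have h1 : V.valuation (x n) < V.valuation (a (n + 1) * x (n + 1)) := by
    rw [map_mul, ha]
    calc V.valuation (x n) ≤ V.valuation (x (n + 1)) := h
      _ = 1 * V.valuation (x (n + 1)) := (one_mul _).symm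
      _ < g * V.valuation (x (n + 1)) := mul_lt_mul_of_pos_right hg hpos
  have h2 : V.valuation (x (n + 2)) = g * V.valuation (x (n + 1)) := by
    rw [hx, Valuation.map_sub_eq_of_lt_left _ h1, map_mul, ha]
  refine ⟨h2, ?_, ?_⟩
  · rw [← Valuation.ne_zero_iff V.valuation, h2]
    exact mul_ne_zero (ne_of_gt (lt_trans zero_lt_one hg)) hpos.ne'
  · rw [h2]
    calc V.valuation (x (n + 1)) = 1 * V.valuation (x (n + 1)) := (one_mul _).symm
      _ ≤ g * V.valuation (x (n + 1)) := (mul_lt_mul_of_pos_right hg hpos).le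

theorem growth_all (n : ℕ) (h0 : x (n + 1) ≠ 0)
    (h : V.valuation (x n) ≤ V.valuation (x (n + 1))) (m : ℕ) :
    x (n + 1 + m) ≠ 0 ∧ V.valuation (x (n + m)) ≤ V.valuation (x (n + 1 + m)) ∧
    V.valuation (x (n + 1 + m + 1)) = g * V.valuation (x (n + 1 + m)) := by
  induction m with
  | zero =>
    obtain ⟨h1, h2, h3⟩ := growth_step V a x g hg ha hx n h0 h
    exact ⟨h0, h, h1⟩
  | succ m ih =>
    obtain ⟨i1, i2, i3⟩ := ih
    have e1 : n + 1 + m = (n + m) + 1 := by ring
    have e2 : n + 1 + m + 1 = (n + m) + 2 := by ring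
    rw [e1] at i1 i2
    obtain ⟨h1, h2, h3⟩ := growth_step V a x g hg ha hx (n + m) i1 i2
    obtain ⟨h4, h5, h6⟩ := growth_step V a x g hg ha hx (n + m + 1) h2 h3
    have e3 : n + 1 + (m + 1) = n + m + 2 := by ring
    have e4 : n + (m + 1) = n + m + 1 := by ring
    rw [e3, e4]
    exact ⟨h2, h3, h4⟩

end growth

/-- existence of a dominated quasi-periodic solution of the variational equation. -/
theorem exists_dominant (V : ValuationSubring K) (a : ℕ → K) (k : ℕ) (hk0 : 0 < k)
    (hk : ∀ n, a (n + k) = a n) (g : V.ValueGroup) (hg : 1 < g)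
    (ha : ∀ n, V.valuation (a n) = g) (h20 : (2 : K) ≠ 0)
    (hsqrt : ∀ x : K, ∃ y, y ^ 2 = x) :
    ∃ (x : ℕ → K) (l : K), l ≠ 0 ∧ (∀ n, x (n + k) = l * x n) ∧
      (∀ n, x (n + 2) = a (n + 1) * x (n + 1) - x n) ∧ (∀ n, x n ≠ 0) ∧
      ∀ n, V.valuation (x (n + 1)) = g * V.valuation (x n) := by
  -- second fundamental solution does not vanish at `k`
  have hβ : sol a 0 1 k ≠ 0 := by
    have h := (growth_all V a (sol a 0 1) g hg ha (fun n => rfl) 0 (by simp [sol])
      (by simp [sol]) (k - 1)).1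
    have e : 0 + 1 + (k - 1) = k := by omega
    rwa [e] at h
  -- the multiplier
  have hlam : ∃ l : K, l ^ 2 - (sol a 1 0 k + sol a 0 1 (k + 1)) * l + 1 = 0 ∧
      1 ≤ V.valuation l := by
    obtain ⟨s, hs⟩ := hsqrt ((sol a 1 0 k + sol a 0 1 (k + 1)) ^ 2 - 4)
    set t := sol a 1 0 k + sol a 0 1 (k + 1) with ht
    have h1 : ((t + s) / 2) ^ 2 - t * ((t + s) / 2) + 1 = 0 := by
      have h4 : (4 : K) ≠ 0 := by
        have : (4 : K) = 2 * 2 := by norm_num
        rw [this]; exact mul_ne_zero h20 h20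
      field_simp
      linear_combination hs
    have h0 : (t + s) / 2 ≠ 0 := by
      intro h
      rw [h] at h1
      norm_num at h1
    generalize (t + s) / 2 = w at h1 h0
    rcases le_or_gt 1 (V.valuation w) with h | h
    · exact ⟨_, h1, h⟩
    · refine ⟨w⁻¹, ?_, ?_⟩
      · have : w⁻¹ ^ 2 - t * w⁻¹ + 1 = w⁻¹ ^ 2 * (w ^ 2 - t * w + 1) := by
          field_simp
          ring
        rw [this, h1, mul_zero]
      · rw [map_inv₀]
        have hpos : 0 < V.valuation w :=
          zero_lt_iff.mpr ((Valuation.ne_zero_iff _).mpr h0)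
        exact ((one_lt_inv₀ hpos).mpr h).le
  obtain ⟨l, hl, hl1⟩ := hlam
  have hl0 : l ≠ 0 := by
    intro h
    rw [h] at hl
    norm_num at hl
  set x : ℕ → K := sol a (sol a 0 1 k) (l - sol a 1 0 k) with hx
  have hrec : ∀ n, x (n + 2) = a (n + 1) * x (n + 1) - x n := fun n => rfl
  have hx0 : x 0 = sol a 0 1 k := rfl
  have hx1 : x 1 = l - sol a 1 0 k := rfl
  have hxk : x k = l * x 0 := by
    rw [hx0, hx, sol_lin]; ring
  have hxk1 : x (k + 1) = l * x 1 := by
    rw [hx1, hx, sol_lin]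
    linear_combination (-1 : K) * sol_wronsk a k - hl
  have hquasi : ∀ n, x (n + k) = l * x n := by
    intro n
    have h := sol_shift a k hk (sol a 0 1 k) (l - sol a 1 0 k) n
    rw [← hx, hxk, hxk1, sol_lin] at h
    rw [h, hx, sol_lin a (sol a 0 1 k) (l - sol a 1 0 k) n]
    show l * sol a 0 1 k * sol a 1 0 n + l * (l - sol a 1 0 k) * sol a 0 1 n = _
    ring
  have hx00 : x 0 ≠ 0 := hβ
  -- the dominated regime starts somewhere
  have hstart : ∃ n, x (n + 1) ≠ 0 ∧ V.valuation (x n) ≤ V.valuation (x (n + 1)) := by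
    by_contra hcon
    push Not at hcon
    have hle : ∀ n, V.valuation (x (n + 1)) ≤ V.valuation (x n) := by
      intro n
      by_cases h : x (n + 1) = 0
      · rw [h, map_zero]; exact zero_le
      · exact (hcon n h).le
    have hlt : V.valuation (x 1) < V.valuation (x 0) := by
      by_cases h : x (0 + 1) = 0
      · rw [show x 1 = 0 from h, map_zero]
        exact zero_lt_iff.mpr ((Valuation.ne_zero_iff _).mpr hx00)
      · exact hcon 0 h
    have hmono : ∀ n, V.valuation (x (n + 1)) ≤ V.valuation (x 1) := by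
      intro n
      induction n with
      | zero => exact le_rfl
      | succ n ih => exact (hle _).trans ih
    have h1 := hmono (k - 1)
    have e : k - 1 + 1 = k := by omega
    rw [e, hxk, map_mul] at h1
    have h2 : V.valuation (x 0) ≤ V.valuation l * V.valuation (x 0) := by
      calc V.valuation (x 0) = 1 * V.valuation (x 0) := (one_mul _).symm
        _ ≤ V.valuation l * V.valuation (x 0) := mul_le_mul_left hl1 _
    exact absurd (lt_of_le_of_lt (h2.trans h1) hlt) (lt_irrefl _)
  obtain ⟨n0, hn0, hn0'⟩ := hstart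
  have hiter : ∀ m n, x (n + m * k) = l ^ m * x n := by
    intro m
    induction m with
    | zero => intro n; simp
    | succ m ih =>
      intro n
      have : n + (m + 1) * k = (n + m * k) + k := by ring
      rw [this, hquasi, ih, pow_succ]
      ring
  have hfin : ∀ n, x n ≠ 0 ∧ V.valuation (x (n + 1)) = g * V.valuation (x n) := by
    intro n
    have hge : n0 + 1 ≤ n + (n0 + 1) * k := by nlinarith
    obtain ⟨m, hm⟩ := Nat.exists_eq_add_of_le hge
    obtain ⟨g1, g2, g3⟩ := growth_all V a x g hg ha hrec n0 hn0 hn0' m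
    rw [← hm] at g1 g3
    have e1 : n + (n0 + 1) * k + 1 = (n + 1) + (n0 + 1) * k := by ring
    rw [hiter] at g1
    rw [e1, hiter, hiter, map_mul, map_mul] at g3
    refine ⟨fun h => g1 (by rw [h, mul_zero]), ?_⟩
    have hl2 : V.valuation (l ^ (n0 + 1)) ≠ 0 :=
      (Valuation.ne_zero_iff _).mpr (pow_ne_zero _ hl0)
    apply mul_left_cancel₀ hl2
    rw [g3]
    exact mul_left_comm _ _ _
  exact ⟨x, l, hl0, hquasi, hrec, fun n => (hfin n).1, fun n => (hfin n).2⟩

/-- The normalised orbit and multiplier data at a place where `c₀` is large. -/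
theorem exists_data [CharZero K] (V : ValuationSubring K) (hsqrt : ∀ x : K, ∃ y, y ^ 2 = x)
    (c₀ : K) (k : ℕ) [NeZero k] (hc : 256 * (k : K) ^ 2 * c₀ ∉ V)
    (z : ZMod k → K) (hz : ∀ n, z (n + 1) + z (n - 1) = z n ^ 2 + c₀) :
    ∃ η : K, η ≠ 0 ∧ V.valuation η < 1 ∧ V.valuation η < V.valuation (4 * (k : K)) ∧
      ∃ R : ZMod k → K,
      (∀ n, 4 * η * z n ∈ V) ∧ (∀ n, (4 * η * z n)⁻¹ ∈ V) ∧ (∀ n, 4 * η * z n ≠ 0) ∧
      (∀ n, R n ∈ V) ∧ (∀ n, (R n)⁻¹ ∈ V) ∧ (∀ n, R n ≠ 0) ∧
      (∀ n, (4 * η * z n) ^ 2 = 1 + 4 * η * (4 * η * z (n + 1) + 4 * η * z (n - 1))) ∧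
      (∀ n, R n + 4 * η ^ 2 * (R (n - 1))⁻¹ = 4 * η * z n) := by
  have h20 : (2 : K) ≠ 0 := two_ne_zero
  have hk0 : (k : K) ≠ 0 := Nat.cast_ne_zero.mpr (NeZero.ne k)
  have hnat : ∀ m : ℕ, V.valuation (m : K) ≤ 1 := fun m =>
    (V.valuation_le_one_iff _).mpr (natCast_mem V m)
  obtain ⟨b, hb⟩ := hsqrt (-c₀)
  have hvb : 1 < V.valuation (16 * (k : K) * b) := by
    by_contra h
    push Not at h
    have : V.valuation ((16 * (k : K) * b) ^ 2) ≤ 1 := by
      rw [map_pow]; exact pow_le_one' h 2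
    have e : (16 * (k : K) * b) ^ 2 = - (256 * (k : K) ^ 2 * c₀) := by
      rw [mul_pow, hb]; ring
    rw [e, Valuation.map_neg] at this
    exact hc ((V.valuation_le_one_iff _).mp this)
  have hb0 : b ≠ 0 := by
    rintro rfl
    rw [mul_zero, map_zero] at hvb
    exact absurd hvb (not_lt.mpr zero_le)
  have hvbpos : 0 < V.valuation b := zero_lt_iff.mpr ((Valuation.ne_zero_iff _).mpr hb0)
  set ε : K := b⁻¹ with hεdef
  have hε0 : ε ≠ 0 := inv_ne_zero hb0
  have hεpos : 0 < V.valuation ε := zero_lt_iff.mpr ((Valuation.ne_zero_iff _).mpr hε0)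
  have hε16 : V.valuation ε < V.valuation (16 * (k : K)) := by
    rw [hεdef, map_inv₀]
    rw [map_mul] at hvb
    exact (inv_lt_iff_one_lt_mul₀ hvbpos).mpr hvb
  have h16 : V.valuation (16 * (k : K)) ≤ 1 := by
    have := hnat (16 * k)
    push_cast at this
    exact this
  have hε1 : V.valuation ε < 1 := lt_of_lt_of_le hε16 h16
  have hεc : ε ^ 2 * c₀ = -1 := by
    have : c₀ = - b ^ 2 := by rw [hb]; ring
    rw [this, hεdef]; field_simp
  set η : K := ε / 4 with hηdef
  have h40 : (4 : K) ≠ 0 := by norm_num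
  have h4η : 4 * η = ε := by rw [hηdef]; field_simp
  have hη0 : η ≠ 0 := div_ne_zero hε0 h40
  have hηpos : 0 < V.valuation η := zero_lt_iff.mpr ((Valuation.ne_zero_iff _).mpr hη0)
  have hη4k : V.valuation η < V.valuation (4 * (k : K)) := by
    have h1 : V.valuation (4 : K) * V.valuation η < V.valuation (4 : K) *
        V.valuation (4 * (k : K)) := by
      rw [← map_mul, ← map_mul, h4η]
      have : (4 : K) * (4 * (k : K)) = 16 * (k : K) := by ring
      rw [this]; exact hε16
    exact lt_of_mul_lt_mul_left' h1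
  have h4k1 : V.valuation (4 * (k : K)) ≤ 1 := by
    have := hnat (4 * k)
    push_cast at this
    exact this
  have hη1 : V.valuation η < 1 := lt_of_lt_of_le hη4k h4k1
  have hsq : ∀ n, (ε * z n) ^ 2 = 1 + ε * (ε * z (n + 1) + ε * z (n - 1)) := by
    intro n
    linear_combination (- ε ^ 2) * hz n - hεc
  have hζ : ∀ n, ε * z n ∈ V := by
    by_contra hcon
    push Not at hcon
    obtain ⟨n0, hn0⟩ := hcon
    obtain ⟨m, hm⟩ := Finite.exists_max (fun n => V.valuation (ε * z n))
    have h1 : 1 < V.valuation (ε * z m) := by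
      refine lt_of_lt_of_le ?_ (hm n0)
      rw [← not_le, V.valuation_le_one_iff]
      exact hn0
    have hM0 : 0 < V.valuation (ε * z m) := lt_trans zero_lt_one h1
    have h2 : V.valuation ((ε * z m) ^ 2) ≤ V.valuation (ε * z m) := by
      rw [hsq]
      apply Valuation.map_add_le
      · rw [map_one]; exact h1.le
      · rw [map_mul]
        have h3 : V.valuation (ε * z (m + 1) + ε * z (m - 1)) ≤ V.valuation (ε * z m) :=
          Valuation.map_add_le _ (hm _) (hm _)
        calc V.valuation ε * V.valuation (ε * z (m + 1) + ε * z (m - 1))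
            ≤ 1 * V.valuation (ε * z m) := mul_le_mul' hε1.le h3
          _ = _ := one_mul _
    rw [map_pow, pow_two] at h2
    have h4 : V.valuation (ε * z m) < V.valuation (ε * z m) * V.valuation (ε * z m) := by
      calc V.valuation (ε * z m) = 1 * V.valuation (ε * z m) := (one_mul _).symm
        _ < _ := mul_lt_mul_of_pos_right h1 hM0
    exact absurd (lt_of_lt_of_le h4 h2) (lt_irrefl _)
  have hv1 : ∀ n, V.valuation (ε * z n) = 1 := by
    intro n
    refine le_antisymm ((V.valuation_le_one_iff _).mpr (hζ n)) ?_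
    by_contra h
    push Not at h
    have h5 : V.valuation (ε * (ε * z (n + 1) + ε * z (n - 1))) < 1 := by
      rw [map_mul]
      have h3 : V.valuation (ε * z (n + 1) + ε * z (n - 1)) ≤ 1 :=
        (V.valuation_le_one_iff _).mpr (add_mem (hζ _) (hζ _))
      calc V.valuation ε * V.valuation (ε * z (n + 1) + ε * z (n - 1))
          ≤ V.valuation ε * 1 := mul_le_mul_right h3 _
        _ = V.valuation ε := mul_one _
        _ < 1 := hε1
    have h6 : V.valuation ((ε * z n) ^ 2) < 1 := by
      rw [map_pow]; exact pow_lt_one' h (by norm_num)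
    have h7 : V.valuation (1 : K) < 1 := by
      have : (1 : K) = (ε * z n) ^ 2 - ε * (ε * z (n + 1) + ε * z (n - 1)) := by
        rw [hsq]; ring
      rw [this]
      exact Valuation.map_sub_lt _ h6 h5
    rw [map_one] at h7
    exact lt_irrefl _ h7
  have hζ0 : ∀ n, ε * z n ≠ 0 := by
    intro n h
    have := hv1 n
    rw [h, map_zero] at this
    exact zero_ne_one this
  have hζi : ∀ n, (ε * z n)⁻¹ ∈ V := by
    intro n
    rw [← V.valuation_le_one_iff, map_inv₀, hv1, inv_one]
  -- valuations of `2 z`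
  have h2η0 : 2 * η ≠ 0 := mul_ne_zero h20 hη0
  have h2ηpos : 0 < V.valuation (2 * η) :=
    zero_lt_iff.mpr ((Valuation.ne_zero_iff _).mpr h2η0)
  have h2η1 : V.valuation (2 * η) < 1 := by
    rw [map_mul]
    have h2 := hnat 2
    push_cast at h2
    calc V.valuation (2 : K) * V.valuation η ≤ 1 * V.valuation η := mul_le_mul_left h2 _
      _ = V.valuation η := one_mul _
      _ < 1 := hη1
  have hva : ∀ n : ℕ, V.valuation (2 * z (n : ZMod k)) = (V.valuation (2 * η))⁻¹ := by
    intro n
    have h := hv1 (n : ZMod k)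
    have e : ε * z (n : ZMod k) = (2 * z (n : ZMod k)) * (2 * η) := by rw [← h4η]; ring
    rw [e, map_mul] at h
    exact eq_inv_of_mul_eq_one_left h
  have hg : 1 < (V.valuation (2 * η))⁻¹ := (one_lt_inv₀ h2ηpos).mpr h2η1
  obtain ⟨x, l, hl0, hquasi, hrec, hxne, hxg⟩ := exists_dominant V
    (fun n : ℕ => 2 * z (n : ZMod k)) k (Nat.pos_of_ne_zero (NeZero.ne k))
    (fun n => by simp) _ hg hva h20 hsqrt
  have hR : ∀ m : ℕ, 2 * η * (x ((m : ZMod k).val + 1) / x ((m : ZMod k).val))
      = 2 * η * (x (m + 1) / x m) := by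
    intro m
    rw [ZMod.val_natCast]
    have hiter : ∀ j n, x (n + j * k) = l ^ j * x n := by
      intro j
      induction j with
      | zero => intro n; simp
      | succ j ih =>
        intro n
        have : n + (j + 1) * k = (n + j * k) + k := by ring
        rw [this, hquasi, ih, pow_succ]
        ring
    have e1 : m = m % k + (m / k) * k := (Nat.mod_add_div' m k).symm
    have h1 : x m = l ^ (m / k) * x (m % k) := by
      conv_lhs => rw [e1]
      exact hiter _ _
    have h2 : x (m + 1) = l ^ (m / k) * x (m % k + 1) := by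
      have e2 : m + 1 = (m % k + 1) + (m / k) * k := by
        conv_lhs => rw [e1]
        ring
      rw [e2]
      exact hiter _ _
    rw [h1, h2]
    have := pow_ne_zero (m / k) hl0
    have := hxne (m % k)
    field_simp
  have hvR : ∀ n : ZMod k, V.valuation (2 * η * (x (n.val + 1) / x n.val)) = 1 := by
    intro n
    rw [map_mul, map_div₀, hxg]
    have h := (Valuation.ne_zero_iff V.valuation).mpr (hxne n.val)
    have h' := h2ηpos.ne'
    field_simp
  have hR0 : ∀ n : ZMod k, 2 * η * (x (n.val + 1) / x n.val) ≠ 0 := fun n =>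
    mul_ne_zero h2η0 (div_ne_zero (hxne _) (hxne _))
  refine ⟨η, hη0, hη1, hη4k, fun n => 2 * η * (x (n.val + 1) / x n.val), ?_⟩
  rw [h4η]
  refine ⟨hζ, hζi, hζ0, ?_, ?_, hR0, hsq, ?_⟩
  · intro n
    rw [← V.valuation_le_one_iff, hvR]
  · intro n
    rw [← V.valuation_le_one_iff, map_inv₀, hvR, inv_one]
  · intro n
    obtain ⟨m, hm⟩ : ∃ m : ℕ, (m : ZMod k) = n - 1 := ⟨(n - 1).val, ZMod.natCast_zmod_val _⟩
    have hn : n = ((m + 1 : ℕ) : ZMod k) := by
      push_cast
      rw [hm]; ring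
    rw [← hm, hn]
    simp only [hR]
    have h := hrec m
    have h0 := hxne m
    have h1 := hxne (m + 1)
    have h3 := hxne (m + 1 + 1)
    have e : m + 2 = m + 1 + 1 := rfl
    rw [e] at h
    rw [h, ← h4η]
    field_simp
    ring

end Pool.Agent.Helper19.Herman
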