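import Pool.Agent.Helper19.Herman.Formal2
import Pool.Agent.Helper19.Herman.Dyn
import Pool.Agent.Helper19.Herman.Orbit2

set_option autoImplicit false
set_option linter.all false

namespace Pool.Agent.Helper19.Herman

open Filter Topology

/-- A periodic function whose partial sums are bounded along a sequence has zero mean. -/
theorem drift (k : ℕ) (hk : 0 < k) (f : ℕ → ℂ) (hf : ∀ n, f (n + k) = f n) (φ : ℕ → ℕ)
    (hφ : Tendsto φ atTop atTop) (M : ℝ)
    (hM : ∀ l, ‖∑ j ∈ Finset.range (φ l), f j‖ ≤ M) : ∑ j ∈ Finset.range k, f j = 0 := by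
  set S : ℕ → ℂ := fun n => ∑ j ∈ Finset.range n, f j with hS
  have h1 : ∀ n, S (n + k) = S n + S k := by
    intro n
    induction n with
    | zero => simp [hS]
    | succ n ih =>
      have e : n + 1 + k = (n + k) + 1 := by ring
      have h2 : S (n + k + 1) = S (n + k) + f (n + k) := Finset.sum_range_succ _ _
      have h3 : S (n + 1) = S n + f n := Finset.sum_range_succ _ _
      rw [e, h2, h3, ih, hf]; ring
  have h2 : ∀ m n, S (n + m * k) = S n + m * S k := by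
    intro m
    induction m with
    | zero => intro n; simp
    | succ m ih =>
      intro n
      have : n + (m + 1) * k = (n + m * k) + k := by ring
      rw [this, h1, ih]; push_cast; ring
  have h3 : ∀ n, S n = S (n % k) + ((n / k : ℕ) : ℂ) * S k := by
    intro n
    conv_lhs => rw [← Nat.mod_add_div' n k]
    exact h2 _ _
  by_contra hne
  have hne' : S k ≠ 0 := hne
  have hpos : 0 < ‖S k‖ := norm_pos_iff.mpr hne'
  obtain ⟨M1, hM1⟩ : ∃ M1 : ℝ, ∀ r < k, ‖S r‖ ≤ M1 := by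
    refine ⟨∑ r ∈ Finset.range k, ‖S r‖, fun r hr => ?_⟩
    exact Finset.single_le_sum (f := fun r => ‖S r‖) (fun _ _ => norm_nonneg _)
      (Finset.mem_range.mpr hr)
  obtain ⟨N, hN⟩ := exists_nat_gt ((M + M1) / ‖S k‖)
  obtain ⟨l, hl⟩ := (hφ.eventually (eventually_ge_atTop (N * k))).exists
  have h4 : N ≤ φ l / k := (Nat.le_div_iff_mul_le hk).mpr hl
  have h5 : ((φ l / k : ℕ) : ℝ) * ‖S k‖ ≤ M + M1 := by
    have h6 : ((φ l / k : ℕ) : ℂ) * S k = S (φ l) - S (φ l % k) := by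
      rw [h3 (φ l)]; simp
    calc ((φ l / k : ℕ) : ℝ) * ‖S k‖ = ‖((φ l / k : ℕ) : ℂ) * S k‖ := by
          rw [norm_mul, Complex.norm_natCast]
      _ = ‖S (φ l) - S (φ l % k)‖ := by rw [h6]
      _ ≤ ‖S (φ l)‖ + ‖S (φ l % k)‖ := norm_sub_le _ _
      _ ≤ M + M1 := add_le_add (hM l) (hM1 _ (Nat.mod_lt _ hk))
  have h7 : (M + M1) < (N : ℝ) * ‖S k‖ := by
    rwa [div_lt_iff₀ hpos] at hN
  have h8 : (N : ℝ) * ‖S k‖ ≤ ((φ l / k : ℕ) : ℝ) * ‖S k‖ :=
    mul_le_mul_of_nonneg_right (by exact_mod_cast h4) hpos.le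
  linarith

/-- the second coordinates along the orbit of a periodic point -/
def orb (c₀ : ℂ) (p : ℂ × ℂ) (k : ℕ) (n : ZMod k) : ℂ := ((henon c₀)^[n.val] p).2

theorem orb_natCast (c₀ : ℂ) (p : ℂ × ℂ) (k : ℕ) (hp : (henon c₀)^[k] p = p) (m : ℕ) :
    orb c₀ p k (m : ZMod k) = ((henon c₀)^[m] p).2 := by
  simp only [orb, ZMod.val_natCast]
  have : Function.IsPeriodicPt (henon c₀) k p := hp
  rw [this.iterate_mod_apply]

theorem orb_iterate (c₀ : ℂ) (p : ℂ × ℂ) (k : ℕ) (hp : (henon c₀)^[k] p = p) (n : ℕ) :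
    (henon c₀)^[n] p = (orb c₀ p k ((n + 1 : ℕ) : ZMod k), orb c₀ p k (n : ZMod k)) := by
  refine Prod.ext ?_ ?_
  · simp only
    rw [orb_natCast c₀ p k hp, Function.iterate_succ_apply']
    rfl
  · simp only
    rw [orb_natCast c₀ p k hp]

theorem orb_rec (c₀ : ℂ) (p : ℂ × ℂ) (k : ℕ) [NeZero k] (hp : (henon c₀)^[k] p = p)
    (n : ZMod k) : orb c₀ p k (n + 1) + orb c₀ p k (n - 1) = orb c₀ p k n ^ 2 + c₀ := by
  obtain ⟨m, hm⟩ : ∃ m : ℕ, (m : ZMod k) = n - 1 := ⟨(n - 1).val, ZMod.natCast_zmod_val _⟩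
  have hn : n = ((m + 1 : ℕ) : ZMod k) := by
    push_cast
    rw [hm]; ring
  have hn1 : n + 1 = ((m + 1 + 1 : ℕ) : ZMod k) := by
    rw [hn]; push_cast; ring
  have h := orb_iterate c₀ p k hp (m + 1)
  rw [Function.iterate_succ_apply', orb_iterate c₀ p k hp m] at h
  have h' : orb c₀ p k ((m + 1 : ℕ) : ZMod k) ^ 2 + c₀ - orb c₀ p k (m : ZMod k)
      = orb c₀ p k ((m + 1 + 1 : ℕ) : ZMod k) := congrArg Prod.fst h
  rw [hn1, ← hm, ← h', hn]
  ring

/-- **Vanishing of the two first Birkhoff coefficients.** -/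
theorem drift_zero (c₀ : ℂ) (k : ℕ) [NeZero k] (p : ℂ × ℂ) (hp : (henon c₀)^[k] p = p)
    (φ : ℕ → ℕ) (hφ : Tendsto φ atTop atTop) (r M : ℝ) (hr : 0 < r)
    (hb : ∀ l, ∀ x, dist x p ≤ r → ‖(henon c₀)^[φ l] x‖ ≤ M)
    (η : ℂ) (hη0 : η ≠ 0) (R B P C Q T ρ b e q σ : ZMod k → ℂ) (hR0 : ∀ n, R n ≠ 0)
    (S : Sys η (fun n => 4 * η * orb c₀ p k n) R B P C Q T ρ b e q σ) :
    ∑ j ∈ Finset.range k, (σ (j : ZMod k) - ρ (j : ZMod k) ^ 2) = 0 := by
  have hk0 : 0 < k := Nat.pos_of_ne_zero (NeZero.ne k)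
  have h2η : 2 * η ≠ 0 := mul_ne_zero two_ne_zero hη0
  set z : ZMod k → ℂ := orb c₀ p k with hzdef
  have hz1 := orb_iterate c₀ p k hp
  -- the coefficient array
  set E : ℕ → ℂ := EE η R with hE
  have hE0 : ∀ n, E n ≠ 0 := by
    intro n
    exact Finset.prod_ne_zero_iff.mpr fun j _ => div_ne_zero (hR0 _) h2η
  have hE1 : ∀ n : ℕ, E (n + 1) = E n * (R (n : ZMod k) / (2 * η)) := fun n =>
    Finset.prod_range_succ _ _
  set c : ℕ → ℕ → ℕ → ℂ := fun n i j => E n ^ i * (E n)⁻¹ ^ j *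
    xc η B P C Q T ρ b e q σ n i j with hcdef
  have hrec : ∀ n i j, i ≤ 3 → j ≤ 2 →
      c (n + 2) i j + c n i j - (2 * z (((n + 1 : ℕ)) : ZMod k)) * c (n + 1) i j
      = ∑ u ∈ Finset.range (i + 1), ∑ v ∈ Finset.range (j + 1),
        c (n + 1) u v * c (n + 1) (i - u) (j - v) := by
    intro n i j hi hj
    have h := xc_rec hη0 two_ne_zero hR0 S n i j hi hj
    have hw := hE0 (n + 1)
    have e2 : E (n + 2) = E (n + 1) * (R ((n : ZMod k) + 1) / (2 * η)) := by
      have := hE1 (n + 1)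
      push_cast at this
      exact this
    have e0 : E n = E (n + 1) * (R (n : ZMod k) / (2 * η))⁻¹ := by
      rw [hE1 n]
      have := hR0 (n : ZMod k)
      field_simp
    have hsum : ∑ u ∈ Finset.range (i + 1), ∑ v ∈ Finset.range (j + 1),
        c (n + 1) u v * c (n + 1) (i - u) (j - v)
        = E (n + 1) ^ i * (E (n + 1))⁻¹ ^ j *
          ∑ u ∈ Finset.range (i + 1), ∑ v ∈ Finset.range (j + 1),
          xc η B P C Q T ρ b e q σ (n + 1) u v
            * xc η B P C Q T ρ b e q σ (n + 1) (i - u) (j - v) := by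
      rw [Finset.mul_sum]
      refine Finset.sum_congr rfl fun u hu => ?_
      rw [Finset.mul_sum]
      refine Finset.sum_congr rfl fun v hv => ?_
      have hu' := Finset.mem_range.mp hu
      have hv' := Finset.mem_range.mp hv
      simp only [hcdef]
      have hi' : E (n + 1) ^ i = E (n + 1) ^ u * E (n + 1) ^ (i - u) := by
        rw [← pow_add]; congr 1; omega
      have hj' : (E (n + 1))⁻¹ ^ j = (E (n + 1))⁻¹ ^ v * (E (n + 1))⁻¹ ^ (j - v) := by
        rw [← pow_add]; congr 1; omega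
      rw [hi', hj']; ring
    rw [hsum, ← h]
    simp only [hcdef]
    rw [e2, e0]
    have ha : 4 * η * z ((n : ZMod k) + 1) / (2 * η) = 2 * z (((n + 1 : ℕ)) : ZMod k) := by
      push_cast
      field_simp
      ring
    rw [ha]
    simp only [mul_pow, mul_inv, inv_inv]
    ring
  have h00 : ∀ n, c n 0 0 = 0 := by
    intro n
    simp [hcdef, xc]
  obtain ⟨Mz, hMz⟩ : ∃ Mz : ℝ, ∀ n : ZMod k, ‖z n‖ ≤ Mz := by
    refine ⟨∑ n : ZMod k, ‖z n‖, fun n => ?_⟩
    exact Finset.single_le_sum (f := fun n => ‖z n‖) (fun _ _ => norm_nonneg _)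
      (Finset.mem_univ n)
  have hbdd := coeff_bounded_of_bounded c₀ p (fun n : ℕ => z (n : ZMod k)) hz1 Mz
    (fun n => hMz _) φ r M hr hb c h00 hrec
  obtain ⟨M01, hM01⟩ := hbdd 0 1 (by norm_num) (by norm_num)
  obtain ⟨M21, hM21⟩ := hbdd 2 1 (by norm_num) (by norm_num)
  obtain ⟨M32, hM32⟩ := hbdd 3 2 (by norm_num) (by norm_num)
  -- lower bound for E
  have hR0' : ∀ n, R n / (2 * η) ≠ 0 := fun n => div_ne_zero (hR0 n) h2η
  obtain ⟨n0, hn0⟩ := Finite.exists_min (fun n : ZMod k =>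
    ‖2 * η * B n‖ + ‖(R n / (2 * η))⁻¹ * (2 * η * B (n + 1))‖)
  set β : ℝ := ‖2 * η * B n0‖ + ‖(R n0 / (2 * η))⁻¹ * (2 * η * B (n0 + 1))‖ with hβdef
  have hβ : 0 < β := by
    rcases eq_or_ne (B n0) 0 with h0 | h0
    · have h1 : B (n0 + 1) ≠ 0 := by
        intro h1
        have h := S.eB n0
        rw [h0, h1] at h
        simp at h
      have h3 : 0 < ‖(R n0 / (2 * η))⁻¹ * (2 * η * B (n0 + 1))‖ :=
        norm_pos_iff.mpr (mul_ne_zero (inv_ne_zero (hR0' _)) (mul_ne_zero h2η h1))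
      have h4 := norm_nonneg (2 * η * B n0)
      linarith
    · have h3 : 0 < ‖2 * η * B n0‖ := norm_pos_iff.mpr (mul_ne_zero h2η h0)
      have h4 := norm_nonneg ((R n0 / (2 * η))⁻¹ * (2 * η * B (n0 + 1)))
      linarith
  have hEinv : ∀ l, ‖(E (φ l))⁻¹‖ ≤ (M01 + M01) / β := by
    intro l
    rw [le_div_iff₀ hβ]
    have h := (hM01 l).1
    have h' := (hM01 l).2
    simp only [hcdef, xc, pow_zero, one_mul, pow_one] at h h'
    rw [hE1, mul_inv, mul_assoc, norm_mul] at h'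
    rw [norm_mul] at h
    push_cast at h'
    calc ‖(E (φ l))⁻¹‖ * β ≤ ‖(E (φ l))⁻¹‖ * (‖2 * η * B (φ l : ZMod k)‖
          + ‖(R (φ l : ZMod k) / (2 * η))⁻¹ * (2 * η * B ((φ l : ZMod k) + 1))‖) :=
          mul_le_mul_of_nonneg_left (hn0 _) (norm_nonneg _)
      _ = ‖(E (φ l))⁻¹‖ * ‖2 * η * B (φ l : ZMod k)‖
          + ‖(E (φ l))⁻¹‖ *
            ‖(R (φ l : ZMod k) / (2 * η))⁻¹ * (2 * η * B ((φ l : ZMod k) + 1))‖ := by ring
      _ ≤ M01 + M01 := add_le_add h h'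
  have hX : ∀ l, ‖XX η ρ (φ l)‖ ≤ (M01 + M01) / β * M21 := by
    intro l
    have h := (hM21 l).1
    simp only [hcdef, xc, pow_one] at h
    have h0 := hE0 (φ l)
    have e1 : XX η ρ (φ l) = (E (φ l))⁻¹ * (E (φ l) ^ 2 * (E (φ l))⁻¹ * XX η ρ (φ l)) := by
      field_simp
    rw [e1, norm_mul]
    exact mul_le_mul (hEinv l) h (norm_nonneg _) ((norm_nonneg _).trans (hEinv l))
  have hY : ∀ l, ‖YY η ρ σ (φ l)‖ ≤ (M01 + M01) / β * M32 := by
    intro l
    have h := (hM32 l).1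
    simp only [hcdef, xc] at h
    have h0 := hE0 (φ l)
    have e1 : YY η ρ σ (φ l) = (E (φ l))⁻¹ * (E (φ l) ^ 3 * (E (φ l))⁻¹ ^ 2 * YY η ρ σ (φ l)) := by
      field_simp
    rw [e1, norm_mul]
    exact mul_le_mul (hEinv l) h (norm_nonneg _) ((norm_nonneg _).trans (hEinv l))
  -- first drift vanishes
  have hXk : XX η ρ k = 0 :=
    drift k hk0 (fun j => 32 * η ^ 3 * ρ (j : ZMod k)) (fun n => by simp) φ hφ _ hX
  have hXper : ∀ n, XX η ρ (n + k) = XX η ρ n := by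
    intro n
    induction n with
    | zero =>
      rw [zero_add, hXk]
      simp [XX]
    | succ n ih =>
      have h1 : ∀ m : ℕ, XX η ρ (m + 1) = XX η ρ m + 32 * η ^ 3 * ρ (m : ZMod k) := fun m =>
        Finset.sum_range_succ _ _
      have e1 : n + 1 + k = (n + k) + 1 := by ring
      rw [e1, h1, h1, ih]
      simp
  -- second drift vanishes
  have hYk : YY η ρ σ k = 0 :=
    drift k hk0 (fun j => 512 * η ^ 6 * σ (j : ZMod k) + XX η ρ j * (32 * η ^ 3 * ρ (j : ZMod k)))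
      (fun n => by simp only [hXper]; simp) φ hφ _ hY
  -- telescoping
  have htel : ∀ n : ℕ, 2 * YY η ρ σ n = XX η ρ n ^ 2
      + 1024 * η ^ 6 * ∑ j ∈ Finset.range n, (σ (j : ZMod k) - ρ (j : ZMod k) ^ 2) := by
    intro n
    induction n with
    | zero => simp [XX, YY]
    | succ n ih =>
      have h1 : XX η ρ (n + 1) = XX η ρ n + 32 * η ^ 3 * ρ (n : ZMod k) :=
        Finset.sum_range_succ _ _
      have h3 : YY η ρ σ (n + 1) = YY η ρ σ n + (512 * η ^ 6 * σ (n : ZMod k)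
        + XX η ρ n * (32 * η ^ 3 * ρ (n : ZMod k))) := Finset.sum_range_succ _ _
      rw [Finset.sum_range_succ, h1, h3]
      linear_combination ih
  have h := htel k
  rw [hYk, hXk] at h
  have h6 : 1024 * η ^ 6 ≠ 0 := mul_ne_zero (by norm_num) (pow_ne_zero _ hη0)
  have : 1024 * η ^ 6 * ∑ j ∈ Finset.range k, (σ (j : ZMod k) - ρ (j : ZMod k) ^ 2) = 0 := by
    rw [mul_zero, zero_pow two_ne_zero, zero_add] at h
    exact h.symm
  exact (mul_eq_zero.mp this).resolve_left h6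

/-- the final contradiction at a place where `256 k² c` is not integral -/
theorem sum_ne {K : Type*} [Field K] [CharZero K] (V : ValuationSubring K) (k : ℕ)
    [NeZero k] (η : K) (hη : V.valuation η < V.valuation (4 * (k : K)))
    (f : ZMod k → K) (hf : ∀ n, ∃ t ∈ V, f n = -4 + η * t) :
    ∑ j ∈ Finset.range k, f (j : ZMod k) ≠ 0 := by
  intro hsum
  choose t ht1 ht2 using hf
  have hfinal : 4 * (k : K) = η * ∑ j ∈ Finset.range k, t (j : ZMod k) := by
    rw [Finset.sum_congr rfl (fun (j : ℕ) _ => ht2 (j : ZMod k)), Finset.sum_add_distrib,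
      ← Finset.mul_sum, Finset.sum_const, Finset.card_range, nsmul_eq_mul] at hsum
    linear_combination (-1 : K) * hsum
  have hkv : V.valuation (4 * (k : K)) ≤ V.valuation η := by
    rw [hfinal, map_mul]
    have h3 : V.valuation (∑ j ∈ Finset.range k, t (j : ZMod k)) ≤ 1 :=
      (V.valuation_le_one_iff _).mpr (sum_mem fun j _ => ht1 _)
    calc V.valuation η * V.valuation (∑ j ∈ Finset.range k, t (j : ZMod k))
        ≤ V.valuation η * 1 := mul_le_mul_right h3 _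
      _ = V.valuation η := mul_one _
  exact absurd hη (not_lt.mpr hkv)

/-- an element which is not integral is outside some valuation subring -/
theorem exists_val {K : Type*} [Field K] (x : K) (hx : ¬ IsIntegral ℤ x) :
    ∃ V : ValuationSubring K, x ∉ V := by
  by_contra hcon
  push Not at hcon
  apply hx
  have h1 : x ∈ (⨅ V : {V : ValuationSubring K // (∅ : Set K) ⊆ V.toSubring},
      V.1.toSubring) := by
    rw [Subring.mem_iInf]
    intro V
    exact hcon V.1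
  rw [iInf_valuationSubring_superset] at h1
  have h2 : IsIntegral (Subring.closure (∅ : Set K)) x := h1
  have h3 : Algebra.IsIntegral ℤ (Subring.closure (∅ : Set K)) := by
    refine ⟨fun y => ?_⟩
    have hle : Subring.closure (∅ : Set K) ≤ ⊥ := by rw [Subring.closure_empty]
    have hy := hle y.2
    rw [Subring.mem_bot] at hy
    obtain ⟨m, hm⟩ := hy
    have : y = algebraMap ℤ _ m := by
      ext
      rw [← hm]
      simp
    rw [this]
    exact isIntegral_algebraMap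
  exact isIntegral_trans x h2

/-- **Integrality.** -/
theorem integral_of_bounded (c₀ : ℂ) (k : ℕ) (hk : 0 < k) (p : ℂ × ℂ)
    (hp : (henon c₀)^[k] p = p)
    (φ : ℕ → ℕ) (hφ : Tendsto φ atTop atTop) (r M : ℝ) (hr : 0 < r)
    (hb : ∀ l, ∀ x, dist x p ≤ r → ‖(henon c₀)^[φ l] x‖ ≤ M) :
    IsIntegral ℤ (256 * (k : ℂ) ^ 2 * c₀) := by
  have : NeZero k := ⟨hk.ne'⟩
  by_contra hint
  obtain ⟨V, hV⟩ := exists_val _ hint
  obtain ⟨η, hη0, hη1, hη4, R, hζ, hζi, hζ0, hR, hRi, hR0, hsq, eR⟩ :=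
    exists_data V (fun x => IsAlgClosed.exists_pow_nat_eq x (by norm_num)) c₀ k hV
      (orb c₀ p k) (orb_rec c₀ p k hp)
  obtain ⟨B, P, C, Q, T, ρ, b, e, q, σ, S, hcong⟩ := exists_sys V hη1
    (fun n => 4 * η * orb c₀ p k n) R hζ hζi hζ0 hR hRi hR0 hsq eR
  have h := drift_zero c₀ k p hp φ hφ r M hr hb η hη0 R B P C Q T ρ b e q σ hR0 S
  exact sum_ne V k η hη4 (fun n => σ n - ρ n ^ 2) hcong h

end Pool.Agent.Helper19.Herman
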