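import Mathlib

set_option autoImplicit false

namespace Pool.Agent.Helper19.Herman

variable {K : Type*} [Field K]

/-- max argument: a finite family with `x n = y n + ε (α x + β x)` lies in the valuation ring. -/
theorem dom {ι : Type*} [Fintype ι] (V : ValuationSubring K) {ε : K} (hε : V.valuation ε < 1)
    (α β y x : ι → K) (j₁ j₂ : ι → ι) (hα : ∀ n, α n ∈ V) (hβ : ∀ n, β n ∈ V)
    (hy : ∀ n, y n ∈ V)
    (h : ∀ n, x n = y n + ε * (α n * x (j₁ n) + β n * x (j₂ n))) : ∀ n, x n ∈ V := by
  by_contra hcon
  push Not at hcon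
  obtain ⟨n0, hn0⟩ := hcon
  have : Nonempty ι := ⟨n0⟩
  obtain ⟨m, hm⟩ := Finite.exists_max (fun n => V.valuation (x n))
  have h1 : 1 < V.valuation (x m) := by
    refine lt_of_lt_of_le ?_ (hm n0)
    rw [← not_le, V.valuation_le_one_iff]
    exact hn0
  have hM0 : V.valuation (x m) ≠ 0 := fun h0 => by
    rw [h0] at h1
    exact absurd h1 (not_lt.mpr zero_le_one)
  have hb : V.valuation (α m * x (j₁ m) + β m * x (j₂ m)) ≤ V.valuation (x m) := by
    apply Valuation.map_add_le
    · rw [map_mul]
      calc V.valuation (α m) * V.valuation (x (j₁ m)) ≤ 1 * V.valuation (x m) :=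
            mul_le_mul' ((V.valuation_le_one_iff _).mpr (hα m)) (hm _)
        _ = _ := one_mul _
    · rw [map_mul]
      calc V.valuation (β m) * V.valuation (x (j₂ m)) ≤ 1 * V.valuation (x m) :=
            mul_le_mul' ((V.valuation_le_one_iff _).mpr (hβ m)) (hm _)
        _ = _ := one_mul _
  have h2 : V.valuation (ε * (α m * x (j₁ m) + β m * x (j₂ m))) < V.valuation (x m) := by
    rw [map_mul]
    calc V.valuation ε * V.valuation (α m * x (j₁ m) + β m * x (j₂ m))
        ≤ V.valuation ε * V.valuation (x m) := mul_le_mul_right hb _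
      _ < 1 * V.valuation (x m) := by
          exact mul_lt_mul_of_pos_right hε (zero_lt_iff.mpr hM0)
      _ = _ := one_mul _
  have h3 : V.valuation (x m) < V.valuation (x m) := by
    conv_lhs => rw [h m]
    exact Valuation.map_add_lt _ (lt_of_le_of_lt ((V.valuation_le_one_iff _).mpr (hy m)) h1) h2
  exact lt_irrefl _ h3

/-- diagonally dominant systems are solvable in the valuation ring. -/
theorem solve {ι : Type*} [Fintype ι] (V : ValuationSubring K) {ε : K} (hε : V.valuation ε < 1)
    (α β y : ι → K) (j₁ j₂ : ι → ι) (hα : ∀ n, α n ∈ V) (hβ : ∀ n, β n ∈ V)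
    (hy : ∀ n, y n ∈ V) :
    ∃ x : ι → K, (∀ n, x n ∈ V) ∧
      ∀ n, x n = y n + ε * (α n * x (j₁ n) + β n * x (j₂ n)) := by
  classical
  let f : (ι → K) →ₗ[K] (ι → K) :=
    { toFun := fun x n => x n - ε * (α n * x (j₁ n) + β n * x (j₂ n))
      map_add' := by
        intro x x'
        ext n
        simp only [Pi.add_apply]
        ring
      map_smul' := by
        intro c x
        ext n
        simp only [Pi.smul_apply, smul_eq_mul, RingHom.id_apply]
        ring }
  have hinj : Function.Injective f := by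
    rw [← LinearMap.ker_eq_bot, LinearMap.ker_eq_bot']
    intro x hx
    have hx' : ∀ n, x n = ε * (α n * x (j₁ n) + β n * x (j₂ n)) := by
      intro n
      have := congrFun hx n
      simp only [f, LinearMap.coe_mk, AddHom.coe_mk, Pi.zero_apply] at this
      exact sub_eq_zero.mp this
    by_contra hne
    have hne' : ∃ n0, x n0 ≠ 0 := by
      by_contra hh
      push Not at hh
      exact hne (funext hh)
    obtain ⟨n0, hn0⟩ := hne'
    have : Nonempty ι := ⟨n0⟩
    obtain ⟨m, hm⟩ := Finite.exists_max (fun n => V.valuation (x n))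
    have hxm : x m ≠ 0 := by
      intro h0
      have := hm n0
      simp only [h0, map_zero] at this
      exact hn0 ((Valuation.zero_iff _).mp (le_antisymm this zero_le))
    -- scale by x m
    have hdom := dom V hε α β (fun _ => 0) (fun n => x n / (ε * x m)) j₁ j₂ hα hβ
      (fun n => V.zero_mem) (by
        intro n
        show x n / (ε * x m) = 0 + ε * (α n * (x (j₁ n) / (ε * x m)) + β n * (x (j₂ n) / (ε * x m)))
        conv_lhs => rw [hx' n]
        ring) m
    by_cases hε0 : ε = 0
    · have := hx' m
      rw [hε0, zero_mul] at this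
      exact hxm this
    have h5 : x m / (ε * x m) = ε⁻¹ := by field_simp
    rw [h5] at hdom
    have h6 := (V.valuation_le_one_iff _).mpr hdom
    rw [map_inv₀] at h6
    have h7 : V.valuation ε ≠ 0 := (Valuation.ne_zero_iff _).mpr hε0
    have h8 : 1 < (V.valuation ε)⁻¹ := (one_lt_inv₀ (zero_lt_iff.mpr h7)).mpr hε
    exact absurd h6 (not_le.mpr h8)
  have hsurj : Function.Surjective f := (LinearMap.injective_iff_surjective).mp hinj
  obtain ⟨x, hx⟩ := hsurj y
  have hx' : ∀ n, x n = y n + ε * (α n * x (j₁ n) + β n * x (j₂ n)) := by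
    intro n
    have := congrFun hx n
    simp only [f, LinearMap.coe_mk, AddHom.coe_mk] at this
    rw [← this]
    ring
  exact ⟨x, dom V hε α β y x j₁ j₂ hα hβ hy hx', hx'⟩

end Pool.Agent.Helper19.Herman
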